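import Mathlib

/-!
The notions of `Defs.lean`, in the form in which the proofs use them.
-/

namespace Pool.Agent.Lib_MP_080eaf_nt

open Matrix

/-- The space `𝒮` of locally constant, compactly supported functions `ℚ_p^d → ℂ_p`. -/
def SB (p : ℕ) [Fact p.Prime] (d : ℕ) : Submodule ℂ_[p] ((Fin d → ℚ_[p]) → ℂ_[p]) where
  carrier := {f | IsLocallyConstant f ∧ HasCompactSupport f}
  add_mem' := fun {_ _} hf hg => ⟨hf.1.add hg.1, hf.2.add hg.2⟩
  zero_mem' := ⟨IsLocallyConstant.const 0, HasCompactSupport.zero⟩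
  smul_mem' := fun c f hf =>
    ⟨by
      have h : (c • f) = (fun z : ℂ_[p] => c * z) ∘ f := rfl
      rw [h]
      exact hf.1.comp _,
     hf.2.smul_left (f := fun _ => c)⟩

/-- A non-trivial smooth (locally constant) character `ψ : (ℚ_p, +) → ℂ_pˣ`. -/
structure SmoothChar (p : ℕ) [Fact p.Prime] where
  /-- the underlying additive character -/
  toAddChar : AddChar ℚ_[p] ℂ_[p]
  /-- it is locally constant -/
  isLocallyConstant : IsLocallyConstant (fun x : ℚ_[p] => toAddChar x)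
  /-- it is not trivial -/
  ne_one : toAddChar ≠ 1

variable {p : ℕ} [Fact p.Prime] {d : ℕ}

/-- The function `x ↦ ψ(t + ½ a·b) ψ(b·x) f(x + a)`, where `w = (a, b)`. -/
noncomputable def heisFun (ψ : SmoothChar p) (w : Fin d ⊕ Fin d → ℚ_[p]) (t : ℚ_[p])
    (f : (Fin d → ℚ_[p]) → ℂ_[p]) : (Fin d → ℚ_[p]) → ℂ_[p] := fun x =>
  ψ.toAddChar (t + (1 / 2) * ((w ∘ Sum.inl) ⬝ᵥ (w ∘ Sum.inr))) *
    ψ.toAddChar ((w ∘ Sum.inr) ⬝ᵥ x) * f (x + w ∘ Sum.inl)

theorem heisFun_mem (ψ : SmoothChar p) (w : Fin d ⊕ Fin d → ℚ_[p]) (t : ℚ_[p])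
    {f : (Fin d → ℚ_[p]) → ℂ_[p]} (hf : f ∈ SB p d) : heisFun ψ w t f ∈ SB p d := by
  have h1 : IsLocallyConstant (fun x : Fin d → ℚ_[p] => ψ.toAddChar ((w ∘ Sum.inr) ⬝ᵥ x)) :=
    ψ.isLocallyConstant.comp_continuous (f := fun x : Fin d → ℚ_[p] => (w ∘ Sum.inr) ⬝ᵥ x)
      (by unfold dotProduct; fun_prop)
  have h2 : IsLocallyConstant (fun x : Fin d → ℚ_[p] => f (x + w ∘ Sum.inl)) :=
    hf.1.comp_continuous (f := fun x : Fin d → ℚ_[p] => x + w ∘ Sum.inl) (by fun_prop)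
  refine ⟨((IsLocallyConstant.const _).mul h1).mul h2, ?_⟩
  exact (hf.2.comp_homeomorph (Homeomorph.addRight (w ∘ Sum.inl))).mul_left

/-- The Siegel parabolic: the elements of `Sp_{2d}(ℚ_p)` whose lower left block is zero. -/
def siegel (p : ℕ) [Fact p.Prime] (d : ℕ) : Subgroup (symplecticGroup (Fin d) ℚ_[p]) where
  carrier := {g | (g : Matrix (Fin d ⊕ Fin d) (Fin d ⊕ Fin d) ℚ_[p]).toBlocks₂₁ = 0}
  mul_mem' := by
    intro g h hg hh
    simp only [Set.mem_ofPred_eq] at hg hh ⊢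
    have h1 : ((g * h : symplecticGroup (Fin d) ℚ_[p]) :
        Matrix (Fin d ⊕ Fin d) (Fin d ⊕ Fin d) ℚ_[p]) = g * h := rfl
    rw [h1, ← fromBlocks_toBlocks (g : Matrix (Fin d ⊕ Fin d) (Fin d ⊕ Fin d) ℚ_[p]),
      ← fromBlocks_toBlocks (h : Matrix (Fin d ⊕ Fin d) (Fin d ⊕ Fin d) ℚ_[p]),
      fromBlocks_multiply, hg, hh]
    simp
  one_mem' := by
    simp only [Set.mem_ofPred_eq]
    have h1 : ((1 : symplecticGroup (Fin d) ℚ_[p]) :
        Matrix (Fin d ⊕ Fin d) (Fin d ⊕ Fin d) ℚ_[p]) = 1 := rfl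
    rw [h1, ← fromBlocks_one, toBlocks_fromBlocks₂₁]
  inv_mem' := by
    intro g hg
    simp only [Set.mem_ofPred_eq] at hg ⊢
    rw [SymplecticGroup.coe_inv]
    rw [← fromBlocks_toBlocks (g : Matrix (Fin d ⊕ Fin d) (Fin d ⊕ Fin d) ℚ_[p]), hg, J,
      fromBlocks_transpose, fromBlocks_neg, fromBlocks_multiply, fromBlocks_multiply]
    simp

/-- The Grassmannian `X = P \ Sp_{2d}(ℚ_p)` of cosets `P g`, with its quotient topology. -/
abbrev X (p : ℕ) [Fact p.Prime] (d : ℕ) : Type :=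
  Quotient (QuotientGroup.rightRel (siegel p d))

/-- The indicator function of `ℤ_p^d`. -/
noncomputable def unitBall (p : ℕ) [Fact p.Prime] (d : ℕ) : (Fin d → ℚ_[p]) → ℂ_[p] :=
  Set.indicator {x | ∀ i, ‖x i‖ ≤ 1} (fun _ => 1)

theorem unitBall_mem (p : ℕ) [Fact p.Prime] (d : ℕ) : unitBall p d ∈ SB p d := by
  have h : {x : Fin d → ℚ_[p] | ∀ i, ‖x i‖ ≤ 1} = Metric.closedBall 0 1 := by
    ext x
    simp [pi_norm_le_iff_of_nonneg]
  have hc : IsClopen (Metric.closedBall (0 : Fin d → ℚ_[p]) 1) :=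
    IsUltrametricDist.isClopen_closedBall _ one_ne_zero
  refine ⟨?_, ?_⟩
  · unfold unitBall
    rw [h]
    exact ((LocallyConstant.const _ (1 : ℂ_[p])).indicator hc).isLocallyConstant
  · unfold unitBall
    rw [h]
    exact HasCompactSupport.intro (isCompact_closedBall 0 1)
      (fun x hx => Set.indicator_of_notMem hx _)


/-- The Heisenberg operator `ρ([w, t])` on `𝒮`:
`(ρ([(a,b), t]) f)(x) = ψ(t + ½ a·b) ψ(b·x) f(x + a)`. -/
noncomputable def heis (ψ : SmoothChar p) (w : Fin d ⊕ Fin d → ℚ_[p]) (t : ℚ_[p]) :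
    SB p d →ₗ[ℂ_[p]] SB p d where
  toFun f := ⟨heisFun ψ w t f, heisFun_mem ψ w t f.2⟩
  map_add' f g := by
    ext x
    simp [heisFun, mul_add]
  map_smul' c f := by
    ext x
    simp [heisFun]
    ring

/-- `T` is an intertwining operator for `g ∈ Sp_{2d}(ℚ_p)`: a linear bijection of `𝒮` with
`ρ([w, t]) T = T ρ([w g, t])` for all `[w, t]` (row vectors `w`). -/
def IsIntertwiner (ψ : SmoothChar p) (g : symplecticGroup (Fin d) ℚ_[p])
    (T : SB p d ≃ₗ[ℂ_[p]] SB p d) : Prop :=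
  ∀ (w : Fin d ⊕ Fin d → ℚ_[p]) (t : ℚ_[p]) (f : SB p d),
    heis ψ w t (T f) = T (heis ψ (w ᵥ* (g : Matrix (Fin d ⊕ Fin d) (Fin d ⊕ Fin d) ℚ_[p])) t f)

/-- The sup norm on `𝒮`. -/
noncomputable def supNorm (f : SB p d) : ℝ := ⨆ x : Fin d → ℚ_[p], ‖(f : (Fin d → ℚ_[p]) → ℂ_[p]) x‖

/-- The element `1_{ℤ_p^d}` of `𝒮`. -/
noncomputable def phi0 (p : ℕ) [Fact p.Prime] (d : ℕ) : SB p d := ⟨unitBall p d, unitBall_mem p d⟩

/-- The norm `‖·‖_I` attached to a set `I ⊆ X`: the supremum over all `g` with `P g ∈ I` and all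
intertwining operators `T` of `g` of `sup |T f| / sup |T 1_{ℤ_p^d}|`. -/
noncomputable def normOn (ψ : SmoothChar p) (I : Set (X p d)) (f : SB p d) : ℝ :=
  sSup {r : ℝ | ∃ g : symplecticGroup (Fin d) ℚ_[p], (Quotient.mk _ g : X p d) ∈ I ∧
    ∃ T : SB p d ≃ₗ[ℂ_[p]] SB p d, IsIntertwiner ψ g T ∧
      r = supNorm (T f) / supNorm (T (phi0 p d))}

/-- `q` is dominated by `N`: there is `c > 0` with `q f ≤ c * N f` for all `f`. -/
def DominatedBy (q N : SB p d → ℝ) : Prop := ∃ c : ℝ, 0 < c ∧ ∀ f, q f ≤ c * N f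

/-- `N₁` and `N₂` are independent: no non-zero non-archimedean seminorm on `𝒮` is dominated by
both. -/
def Independent (N₁ N₂ : SB p d → ℝ) : Prop :=
  ∀ q : Seminorm ℂ_[p] (SB p d), (∀ f g, q (f + g) ≤ max (q f) (q g)) →
    DominatedBy (fun f => q f) N₁ → DominatedBy (fun f => q f) N₂ → q = 0

end Pool.Agent.Lib_MP_080eaf_nt
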