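import Mathlib

/-!
Definitions for MP_080eaf_nt: the Heisenberg group representation on locally constant compactly
supported functions with values in `ℂ_p`, its intertwining operators, and the norms attached to
subsets of the symplectic Grassmannian.
-/

namespace Pool.Agent.Lib_MP_080eaf_nt

open Matrix

/-- The field `ℂ_p` (Mathlib's `ℂ_[p]`), with its normed field structure. -/
def Cp (p : ℕ) [Fact p.Prime] : Type := ℂ_[p]

noncomputable instance instNormedFieldCp (p : ℕ) [Fact p.Prime] : NormedField (Cp p) :=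
  PadicComplex.normedField p

/-- The space `𝒮` of locally constant, compactly supported functions `ℚ_p^d → ℂ_p`, as a
subspace of the space of all functions. -/
def SBSub (p : ℕ) [Fact p.Prime] (d : ℕ) : Submodule (Cp p) ((Fin d → ℚ_[p]) → Cp p) where
  carrier := {f | IsLocallyConstant f ∧ HasCompactSupport f}
  add_mem' := fun {_ _} hf hg => ⟨hf.1.add hg.1, hf.2.add hg.2⟩
  zero_mem' := ⟨IsLocallyConstant.const 0, HasCompactSupport.zero⟩
  smul_mem' := fun c _ hf => ⟨hf.1.comp (fun z : Cp p => c * z), hf.2.smul_left (f := fun _ => c)⟩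

/-- The space `𝒮` as a type. -/
def SBFun (p : ℕ) [Fact p.Prime] (d : ℕ) : Type := SBSub p d

noncomputable instance instAddCommGroupSBFun (p : ℕ) [Fact p.Prime] (d : ℕ) :
    AddCommGroup (SBFun p d) := Submodule.addCommGroup (SBSub p d)

noncomputable instance instModuleSBFun (p : ℕ) [Fact p.Prime] (d : ℕ) :
    Module (Cp p) (SBFun p d) := Submodule.module (SBSub p d)

/-- A non-trivial smooth (locally constant) character `ψ : (ℚ_p, +) → ℂ_pˣ`. -/
structure SmoothCharacter (p : ℕ) [Fact p.Prime] where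
  /-- the underlying additive character -/
  char : AddChar ℚ_[p] (Cp p)
  /-- it is locally constant -/
  isLocallyConstant : IsLocallyConstant (fun x : ℚ_[p] => char x)
  /-- it is not trivial -/
  ne_one : char ≠ 1

variable {p : ℕ} [Fact p.Prime] {d : ℕ}

/-- The function `ℚ_p^d → ℂ_p` given by an element of `𝒮`. -/
def SBFun.fn (f : SBFun p d) : (Fin d → ℚ_[p]) → Cp p := Subtype.val f

/-- The function `x ↦ ψ(t + ½ a·b) ψ(b·x) f(x + a)`. -/
noncomputable def rhoFun (ψ : SmoothCharacter p) (a b : Fin d → ℚ_[p]) (t : ℚ_[p])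
    (f : (Fin d → ℚ_[p]) → Cp p) : (Fin d → ℚ_[p]) → Cp p := fun x =>
  ψ.char (t + (1 / 2) * (a ⬝ᵥ b)) * ψ.char (b ⬝ᵥ x) * f (x + a)

theorem rhoFun_mem (ψ : SmoothCharacter p) (a b : Fin d → ℚ_[p]) (t : ℚ_[p])
    {f : (Fin d → ℚ_[p]) → Cp p} (hf : f ∈ SBSub p d) : rhoFun ψ a b t f ∈ SBSub p d := by
  have h1 : IsLocallyConstant (fun x : Fin d → ℚ_[p] => ψ.char (b ⬝ᵥ x)) :=
    ψ.isLocallyConstant.comp_continuous (f := fun x : Fin d → ℚ_[p] => b ⬝ᵥ x)
      (by unfold dotProduct; fun_prop)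
  have h2 : IsLocallyConstant (fun x : Fin d → ℚ_[p] => f (x + a)) :=
    hf.1.comp_continuous (f := fun x : Fin d → ℚ_[p] => x + a) (by fun_prop)
  refine ⟨((IsLocallyConstant.const _).mul h1).mul h2, ?_⟩
  exact (hf.2.comp_homeomorph (Homeomorph.addRight a)).mul_left

/-- The Heisenberg operator `ρ([w, t])` on `𝒮`, `w = (a, b)`:
`(ρ([a, b, t]) f)(x) = ψ(t + ½ a·b) ψ(b·x) f(x + a)`. -/
noncomputable def rho (ψ : SmoothCharacter p) (w : Fin d ⊕ Fin d → ℚ_[p]) (t : ℚ_[p])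
    (f : SBFun p d) : SBFun p d :=
  ⟨rhoFun ψ (w ∘ Sum.inl) (w ∘ Sum.inr) t f.fn, rhoFun_mem ψ _ _ t (Subtype.property f)⟩

/-- `T` is an intertwining operator for `g ∈ Sp_{2d}(ℚ_p)`: a linear bijection of `𝒮` with
`ρ([w, t]) T = T ρ([w g, t])` for all `[w, t]` (row vectors `w`). -/
def Intertwines (ψ : SmoothCharacter p) (g : symplecticGroup (Fin d) ℚ_[p])
    (T : SBFun p d ≃ₗ[Cp p] SBFun p d) : Prop :=
  ∀ (w : Fin d ⊕ Fin d → ℚ_[p]) (t : ℚ_[p]) (f : SBFun p d),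
    rho ψ w t (T f) = T (rho ψ (w ᵥ* (g : Matrix (Fin d ⊕ Fin d) (Fin d ⊕ Fin d) ℚ_[p])) t f)

theorem siegel_inv {g : symplecticGroup (Fin d) ℚ_[p]}
    (hg : (g : Matrix (Fin d ⊕ Fin d) (Fin d ⊕ Fin d) ℚ_[p]).toBlocks₂₁ = 0) :
    ((g⁻¹ : symplecticGroup (Fin d) ℚ_[p]) :
      Matrix (Fin d ⊕ Fin d) (Fin d ⊕ Fin d) ℚ_[p]).toBlocks₂₁ = 0 := by
  rw [SymplecticGroup.coe_inv]
  rw [← fromBlocks_toBlocks (g : Matrix (Fin d ⊕ Fin d) (Fin d ⊕ Fin d) ℚ_[p]), hg, J,
    fromBlocks_transpose, fromBlocks_neg, fromBlocks_multiply, fromBlocks_multiply]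
  simp

/-- The Siegel parabolic: the elements of `Sp_{2d}(ℚ_p)` whose lower left block is zero. -/
def siegelP (p : ℕ) [Fact p.Prime] (d : ℕ) : Subgroup (symplecticGroup (Fin d) ℚ_[p]) where
  carrier := {g | (g : Matrix (Fin d ⊕ Fin d) (Fin d ⊕ Fin d) ℚ_[p]).toBlocks₂₁ = 0}
  mul_mem' := by
    intro g h hg hh
    simp only [Set.mem_ofPred_eq] at hg hh ⊢
    have h1 : ((g * h : symplecticGroup (Fin d) ℚ_[p]) :
        Matrix (Fin d ⊕ Fin d) (Fin d ⊕ Fin d) ℚ_[p]) = g * h := rfl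
    rw [h1, ← fromBlocks_toBlocks (g : Matrix (Fin d ⊕ Fin d) (Fin d ⊕ Fin d) ℚ_[p]),
      ← fromBlocks_toBlocks (h : Matrix (Fin d ⊕ Fin d) (Fin d ⊕ Fin d) ℚ_[p]),
      fromBlocks_multiply, hg, hh]
    simp
  one_mem' := by
    simp only [Set.mem_ofPred_eq]
    have h1 : ((1 : symplecticGroup (Fin d) ℚ_[p]) :
        Matrix (Fin d ⊕ Fin d) (Fin d ⊕ Fin d) ℚ_[p]) = 1 := rfl
    rw [h1, ← fromBlocks_one, toBlocks_fromBlocks₂₁]
  inv_mem' := fun hg => siegel_inv hg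

/-- The Grassmannian `X = P \ Sp_{2d}(ℚ_p)` of cosets `P g`, with its quotient topology. -/
abbrev GrassX (p : ℕ) [Fact p.Prime] (d : ℕ) : Type :=
  Quotient (QuotientGroup.rightRel (siegelP p d))

/-- The sup norm on `𝒮`. -/
noncomputable def supNormS (f : SBFun p d) : ℝ := ⨆ x : Fin d → ℚ_[p], ‖f.fn x‖

/-- The indicator function of `ℤ_p^d`. -/
noncomputable def oneZpFun (p : ℕ) [Fact p.Prime] (d : ℕ) : (Fin d → ℚ_[p]) → Cp p :=
  Set.indicator {x | ∀ i, ‖x i‖ ≤ 1} (fun _ => 1)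

theorem oneZpFun_mem (p : ℕ) [Fact p.Prime] (d : ℕ) : oneZpFun p d ∈ SBSub p d := by
  have h : {x : Fin d → ℚ_[p] | ∀ i, ‖x i‖ ≤ 1} = Metric.closedBall 0 1 := by
    ext x
    simp [pi_norm_le_iff_of_nonneg]
  have hc : IsClopen (Metric.closedBall (0 : Fin d → ℚ_[p]) 1) :=
    IsUltrametricDist.isClopen_closedBall _ one_ne_zero
  refine ⟨?_, ?_⟩
  · unfold oneZpFun
    rw [h]
    exact ((LocallyConstant.const _ (1 : Cp p)).indicator hc).isLocallyConstant
  · unfold oneZpFun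
    rw [h]
    exact HasCompactSupport.intro (isCompact_closedBall 0 1)
      (fun x hx => Set.indicator_of_notMem hx _)

/-- The element `1_{ℤ_p^d}` of `𝒮`. -/
noncomputable def oneZp (p : ℕ) [Fact p.Prime] (d : ℕ) : SBFun p d :=
  ⟨oneZpFun p d, oneZpFun_mem p d⟩

/-- The norm `‖·‖_I` attached to a set `I ⊆ X`: the supremum over all `g` with `P g ∈ I` and all
intertwining operators `T` of `g` of `sup |T f| / sup |T 1_{ℤ_p^d}|`. -/
noncomputable def normOnX (ψ : SmoothCharacter p) (I : Set (GrassX p d)) (f : SBFun p d) : ℝ :=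
  sSup {r : ℝ | ∃ g : symplecticGroup (Fin d) ℚ_[p], (Quotient.mk _ g : GrassX p d) ∈ I ∧
    ∃ T : SBFun p d ≃ₗ[Cp p] SBFun p d, Intertwines ψ g T ∧
      r = supNormS (T f) / supNormS (T (oneZp p d))}

/-- `q` is dominated by `N`: there is `c > 0` with `q f ≤ c * N f` for all `f`. -/
def Dominated (q N : SBFun p d → ℝ) : Prop := ∃ c : ℝ, 0 < c ∧ ∀ f, q f ≤ c * N f

/-- `N₁` and `N₂` are independent: no non-zero non-archimedean seminorm on `𝒮` is dominated by
both. -/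
def AreIndependent (N₁ N₂ : SBFun p d → ℝ) : Prop :=
  ∀ q : Seminorm (Cp p) (SBFun p d), (∀ f g, q (f + g) ≤ max (q f) (q g)) →
    Dominated (fun f => q f) N₁ → Dominated (fun f => q f) N₂ → q = 0

end Pool.Agent.Lib_MP_080eaf_nt
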