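import Mathlib
import Pool.Agent.Lib_MP_080eaf_nt.Core

/-! Lattices, levels of functions and the invariant integral. -/

namespace Pool.Agent.Lib_MP_080eaf_nt

open Matrix

variable {p : ℕ} [hp : Fact p.Prime] {d : ℕ}

theorem one_lt_pR (p : ℕ) [hp : Fact p.Prime] : (1 : ℝ) < p := by exact_mod_cast hp.1.one_lt

theorem pR_pos (p : ℕ) [hp : Fact p.Prime] : (0 : ℝ) < p := by exact_mod_cast hp.1.pos

/-- The lattice `p^n ℤ_p^d`. -/
def L (p : ℕ) [Fact p.Prime] (d : ℕ) (n : ℤ) : AddSubgroup (Fin d → ℚ_[p]) where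
  carrier := {x | ∀ i, ‖x i‖ ≤ (p : ℝ) ^ (-n)}
  add_mem' := by
    intro x y hx hy i
    exact (IsUltrametricDist.norm_add_le_max _ _).trans (max_le (hx i) (hy i))
  zero_mem' := by
    intro i
    simp only [Pi.zero_apply, norm_zero]
    exact (zpow_pos (pR_pos p) _).le
  neg_mem' := by
    intro x hx i
    simpa using hx i

theorem mem_L {n : ℤ} {x : Fin d → ℚ_[p]} : x ∈ L p d n ↔ ∀ i, ‖x i‖ ≤ (p : ℝ) ^ (-n) := Iff.rfl

theorem L_eq_closedBall (n : ℤ) : (L p d n : Set (Fin d → ℚ_[p])) =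
    Metric.closedBall 0 ((p : ℝ) ^ (-n)) := by
  ext x
  simp only [SetLike.mem_coe, mem_L, Metric.mem_closedBall, dist_zero_right]
  rw [pi_norm_le_iff_of_nonneg (zpow_pos (pR_pos p) _).le]

theorem L_isClopen (n : ℤ) : IsClopen (L p d n : Set (Fin d → ℚ_[p])) := by
  rw [L_eq_closedBall]
  exact IsUltrametricDist.isClopen_closedBall _ (zpow_pos (pR_pos p) _).ne'

theorem L_isCompact (n : ℤ) : IsCompact (L p d n : Set (Fin d → ℚ_[p])) := by
  rw [L_eq_closedBall]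
  exact isCompact_closedBall 0 _

theorem L_anti {m n : ℤ} (h : m ≤ n) : L p d n ≤ L p d m := by
  intro x hx i
  refine (hx i).trans ?_
  exact zpow_le_zpow_right₀ (one_lt_pR p).le (by omega)

/-- `F` is invariant under translations by `p^n ℤ_p^d`. -/
def Inv (n : ℤ) (F : (Fin d → ℚ_[p]) → ℂ_[p]) : Prop := ∀ x z, z ∈ L p d n → F (x + z) = F x

theorem Inv.mono {m n : ℤ} (h : m ≤ n) {F : (Fin d → ℚ_[p]) → ℂ_[p]} (hF : Inv m F) : Inv n F :=
  fun x z hz => hF x z (L_anti h hz)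

theorem exists_inv {f : (Fin d → ℚ_[p]) → ℂ_[p]} (hf : f ∈ SB p d) : ∃ n : ℕ, Inv (n : ℤ) f := by
  obtain ⟨δ, hδ, h⟩ := lebesgue_number_lemma_of_metric (s := tsupport f)
    (c := fun y : Fin d → ℚ_[p] => f ⁻¹' {f y}) hf.2 (fun y => hf.1 _)
    (fun x _ => Set.mem_iUnion.2 ⟨x, rfl⟩)
  -- points at distance `< δ` have the same value
  have key : ∀ x y : Fin d → ℚ_[p], x ∈ tsupport f → dist y x < δ → f y = f x := by
    intro x y hx hy
    obtain ⟨i, hi⟩ := h x hx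
    have h1 : f x = f i := hi (Metric.mem_ball_self hδ)
    have h2 : f y = f i := hi (Metric.mem_ball.2 hy)
    rw [h1, h2]
  obtain ⟨n, hn⟩ : ∃ n : ℕ, (p : ℝ) ^ (-(n : ℤ)) < δ := by
    obtain ⟨n, hn⟩ := exists_pow_lt_of_lt_one hδ (inv_lt_one_of_one_lt₀ (one_lt_pR p))
    exact ⟨n, by rwa [_root_.zpow_neg, zpow_natCast, ← inv_pow]⟩
  refine ⟨n, fun x z hz => ?_⟩
  have hz' : ‖z‖ < δ := by
    have : z ∈ (L p d n : Set (Fin d → ℚ_[p])) := hz
    rw [L_eq_closedBall, Metric.mem_closedBall, dist_zero_right] at this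
    exact this.trans_lt hn
  by_cases hx : x ∈ tsupport f
  · exact key x (x + z) hx (by simpa [dist_eq_norm] using hz')
  · by_cases hxz : x + z ∈ tsupport f
    · exact (key (x + z) x hxz (by simpa [dist_eq_norm] using hz')).symm
    · rw [image_eq_zero_of_notMem_tsupport hx, image_eq_zero_of_notMem_tsupport hxz]

theorem exists_supp {f : (Fin d → ℚ_[p]) → ℂ_[p]} (hf : f ∈ SB p d) :
    ∃ n : ℕ, ∀ x, f x ≠ 0 → x ∈ L p d (-n) := by
  obtain ⟨R, hR⟩ := hf.2.isBounded.subset_closedBall 0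
  obtain ⟨n, hn⟩ : ∃ n : ℕ, R < (p : ℝ) ^ n := pow_unbounded_of_one_lt R (one_lt_pR p)
  refine ⟨n, fun x hx => ?_⟩
  have h1 : x ∈ Metric.closedBall 0 R := hR (subset_tsupport f hx)
  have h2 : x ∈ (L p d (-n) : Set (Fin d → ℚ_[p])) := by
    rw [L_eq_closedBall, neg_neg, zpow_natCast]
    exact Metric.closedBall_subset_closedBall hn.le h1
  exact h2

/-- Level `n`: support in `p^{-n} ℤ_p^d`, invariance under `p^n ℤ_p^d`. -/
structure HasLevel (n : ℕ) (F : (Fin d → ℚ_[p]) → ℂ_[p]) : Prop where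
  supp : ∀ x, F x ≠ 0 → x ∈ L p d (-n)
  inv : Inv (n : ℤ) F

theorem exists_level {f : (Fin d → ℚ_[p]) → ℂ_[p]} (hf : f ∈ SB p d) : ∃ n : ℕ, HasLevel n f := by
  obtain ⟨m, hm⟩ := exists_inv hf
  obtain ⟨n, hn⟩ := exists_supp hf
  refine ⟨max m n, ⟨fun x hx => L_anti ?_ (hn x hx), hm.mono ?_⟩⟩
  · simp
  · simp

theorem mem_SB_of {F : (Fin d → ℚ_[p]) → ℂ_[p]} {m n : ℤ} (h1 : ∀ x, F x ≠ 0 → x ∈ L p d m)
    (h2 : Inv n F) : F ∈ SB p d := by
  refine ⟨?_, ?_⟩
  · rw [IsLocallyConstant.iff_exists_open]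
    intro x
    refine ⟨(fun y => y - x) ⁻¹' (L p d n : Set (Fin d → ℚ_[p])),
      (L_isClopen n).isOpen.preimage (by fun_prop), ?_, ?_⟩
    · simp
    · intro y hy
      have := h2 x (y - x) hy
      rwa [add_sub_cancel] at this
  · refine HasCompactSupport.intro (L_isCompact (p := p) (d := d) m) (fun x hx => ?_)
    by_contra h
    exact hx (h1 x h)

instance discr (n : ℤ) : DiscreteTopology ((Fin d → ℚ_[p]) ⧸ L p d n) :=
  QuotientAddGroup.discreteTopology (L_isClopen n).isOpen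

theorem fin_supp (n : ℤ) {F : (Fin d → ℚ_[p]) → ℂ_[p]} (hF : HasCompactSupport F) :
    (Function.support fun q : (Fin d → ℚ_[p]) ⧸ L p d n => F q.out).Finite := by
  have h1 : (((↑) : (Fin d → ℚ_[p]) → (Fin d → ℚ_[p]) ⧸ L p d n) '' tsupport F).Finite :=
    (hF.isCompact.image (QuotientAddGroup.continuous_mk)).finite_of_discrete
  refine h1.subset ?_
  intro q hq
  refine ⟨q.out, subset_tsupport F hq, ?_⟩
  exact QuotientAddGroup.out_eq' q

/-- The sum of the values over the cosets of `p^n ℤ_p^d`. -/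
noncomputable def sig (n : ℤ) (F : (Fin d → ℚ_[p]) → ℂ_[p]) : ℂ_[p] :=
  ∑ᶠ q : (Fin d → ℚ_[p]) ⧸ L p d n, F q.out

theorem sig_add (n : ℤ) {F G : (Fin d → ℚ_[p]) → ℂ_[p]} (hF : HasCompactSupport F)
    (hG : HasCompactSupport G) : sig n (F + G) = sig n F + sig n G := by
  unfold sig
  rw [← finsum_add_distrib (fin_supp n hF) (fin_supp n hG)]
  rfl

theorem sig_smul (n : ℤ) (c : ℂ_[p]) (F : (Fin d → ℚ_[p]) → ℂ_[p]) :
    sig n (c • F) = c * sig n F := by
  unfold sig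
  rw [← smul_eq_mul, smul_finsum]
  rfl

theorem Inv.out_eq {n : ℤ} {F : (Fin d → ℚ_[p]) → ℂ_[p]} (hF : Inv n F) (x : Fin d → ℚ_[p]) :
    F ((x : (Fin d → ℚ_[p]) ⧸ L p d n).out) = F x := by
  obtain ⟨z, hz⟩ := QuotientAddGroup.mk_out_eq_add (L p d n) x
  rw [hz]
  exact hF x z z.2

theorem sig_translate (n : ℤ) {F : (Fin d → ℚ_[p]) → ℂ_[p]} (hF : Inv n F)
    (a : Fin d → ℚ_[p]) : sig n (fun x => F (x + a)) = sig n F := by
  unfold sig
  rw [← finsum_comp_equiv (Equiv.addRight (a : (Fin d → ℚ_[p]) ⧸ L p d n))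
    (f := fun q => F q.out)]
  refine finsum_congr fun q => ?_
  have h : Equiv.addRight (a : (Fin d → ℚ_[p]) ⧸ L p d n) q
      = ((q.out + a : Fin d → ℚ_[p]) : (Fin d → ℚ_[p]) ⧸ L p d n) := by
    rw [QuotientAddGroup.mk_add, QuotientAddGroup.out_eq']
    rfl
  rw [h, hF.out_eq]

theorem finite_quot (m n : ℤ) : Finite (L p d m ⧸ (L p d n).addSubgroupOf (L p d m)) := by
  have : CompactSpace (L p d m) := isCompact_iff_compactSpace.1 (L_isCompact m)
  refine AddSubgroup.quotient_finite_of_isOpen _ ?_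
  exact (L_isClopen n).isOpen.preimage continuous_subtype_val

theorem L_relIndex_ne_zero (m n : ℤ) : (L p d n).relIndex (L p d m) ≠ 0 := by
  have := finite_quot (p := p) (d := d) m n
  rw [AddSubgroup.relIndex, AddSubgroup.index]
  exact Nat.card_pos.ne'

theorem sig_refine {m n : ℤ} (h : m ≤ n) {F : (Fin d → ℚ_[p]) → ℂ_[p]} (hF : Inv m F)
    (hc : HasCompactSupport F) : sig n F = ((L p d n).relIndex (L p d m) : ℂ_[p]) * sig m F := by
  have := finite_quot (p := p) (d := d) m n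
  let _ := Fintype.ofFinite (L p d m ⧸ (L p d n).addSubgroupOf (L p d m))
  unfold sig
  set e := AddSubgroup.quotientEquivProdOfLE (L_anti (p := p) (d := d) h) with he
  have h1 : ∀ q : (Fin d → ℚ_[p]) ⧸ L p d n, F q.out = F ((e q).1.out) := by
    intro q
    induction q using QuotientAddGroup.induction_on with
    | H x =>
      have h2 : (e (x : (Fin d → ℚ_[p]) ⧸ L p d n)).1 = (x : (Fin d → ℚ_[p]) ⧸ L p d m) := rfl
      rw [h2, hF.out_eq, (hF.mono h).out_eq]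
  rw [finsum_congr h1, finsum_comp_equiv e (f := fun q => F q.1.out)]
  rw [finsum_curry]
  · have h3 : ∀ a : (Fin d → ℚ_[p]) ⧸ L p d m,
        (∑ᶠ (_ : L p d m ⧸ (L p d n).addSubgroupOf (L p d m)), F a.out)
          = ((L p d n).relIndex (L p d m) : ℂ_[p]) * F a.out := by
      intro a
      rw [finsum_eq_sum_of_fintype, Finset.sum_const, nsmul_eq_mul]
      congr 2
      rw [AddSubgroup.relIndex, AddSubgroup.index, Nat.card_eq_fintype_card]
      rfl
    rw [finsum_congr h3, ← smul_eq_mul, smul_finsum]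
    rfl
  · have h4 := fin_supp m hc
    have h5 : (Function.support fun q : ((Fin d → ℚ_[p]) ⧸ L p d m) ×
        (L p d m ⧸ (L p d n).addSubgroupOf (L p d m)) => F q.1.out) ⊆
        (Function.support fun q : (Fin d → ℚ_[p]) ⧸ L p d m => F q.out) ×ˢ Set.univ := by
      intro q hq
      exact ⟨hq, Set.mem_univ _⟩
    exact (h4.prod Set.finite_univ).subset h5

end Pool.Agent.Lib_MP_080eaf_nt
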