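import Mathlib
import Pool.Agent.Lib_MP_080eaf_nt.Lattice

/-! The invariant integral and the conductor of the character. -/

namespace Pool.Agent.Lib_MP_080eaf_nt

open Matrix

variable {p : ℕ} [hp : Fact p.Prime] {d : ℕ}

open Classical in
/-- The invariant integral of an element of `𝒮`, normalised by `∫ 1_{ℤ_p^d} = 1`. -/
noncomputable def integ (F : (Fin d → ℚ_[p]) → ℂ_[p]) : ℂ_[p] :=
  if h : ∃ n : ℕ, Inv (n : ℤ) F then
    sig (Nat.find h : ℤ) F / ((L p d (Nat.find h : ℤ)).relIndex (L p d 0) : ℂ_[p])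
  else 0

theorem integ_eq {F : (Fin d → ℚ_[p]) → ℂ_[p]} (hc : HasCompactSupport F) {n : ℕ}
    (hn : Inv (n : ℤ) F) : integ F = sig (n : ℤ) F / ((L p d n).relIndex (L p d 0) : ℂ_[p]) := by
  classical
  have h : ∃ n : ℕ, Inv (n : ℤ) F := ⟨n, hn⟩
  have h1 : integ F = sig (Nat.find h : ℤ) F /
      ((L p d (Nat.find h : ℤ)).relIndex (L p d 0) : ℂ_[p]) := by
    unfold integ
    rw [dif_pos h]
  rw [h1]
  have hle : ((Nat.find h : ℕ) : ℤ) ≤ (n : ℤ) := by exact_mod_cast Nat.find_le hn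
  rw [sig_refine hle (Nat.find_spec h) hc]
  have h2 := AddSubgroup.relIndex_mul_relIndex (L p d n) (L p d (Nat.find h : ℤ)) (L p d 0)
    (L_anti hle) (L_anti (by positivity))
  rw [← h2]
  have h3 : ((L p d n).relIndex (L p d (Nat.find h : ℤ)) : ℂ_[p]) ≠ 0 :=
    Nat.cast_ne_zero.2 (L_relIndex_ne_zero _ _)
  have h4 : ((L p d (Nat.find h : ℤ)).relIndex (L p d 0) : ℂ_[p]) ≠ 0 :=
    Nat.cast_ne_zero.2 (L_relIndex_ne_zero _ _)
  push_cast
  field_simp

theorem integ_add {F G : (Fin d → ℚ_[p]) → ℂ_[p]} (hF : F ∈ SB p d) (hG : G ∈ SB p d) :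
    integ (F + G) = integ F + integ G := by
  obtain ⟨m, hm⟩ := exists_inv hF
  obtain ⟨n, hn⟩ := exists_inv hG
  have h1 : Inv ((max m n : ℕ) : ℤ) F := hm.mono (by simp)
  have h2 : Inv ((max m n : ℕ) : ℤ) G := hn.mono (by simp)
  have h3 : Inv ((max m n : ℕ) : ℤ) (F + G) := by
    intro x z hz
    simp only [Pi.add_apply]
    rw [h1 x z hz, h2 x z hz]
  rw [integ_eq hF.2 h1, integ_eq hG.2 h2, integ_eq (hF.2.add hG.2) h3, sig_add _ hF.2 hG.2,
    add_div]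

theorem integ_smul (c : ℂ_[p]) {F : (Fin d → ℚ_[p]) → ℂ_[p]} (hF : F ∈ SB p d) :
    integ (c • F) = c * integ F := by
  obtain ⟨n, hn⟩ := exists_inv hF
  have h3 : Inv (n : ℤ) (c • F) := by
    intro x z hz
    simp only [Pi.smul_apply]
    rw [hn x z hz]
  rw [integ_eq hF.2 hn, integ_eq ((SB p d).smul_mem c hF).2 h3, sig_smul, mul_div_assoc]

theorem integ_translate {F : (Fin d → ℚ_[p]) → ℂ_[p]} (hF : F ∈ SB p d) (a : Fin d → ℚ_[p]) :
    integ (fun x => F (x + a)) = integ F := by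
  obtain ⟨n, hn⟩ := exists_inv hF
  have h3 : Inv (n : ℤ) (fun x => F (x + a)) := by
    intro x z hz
    change F (x + z + a) = F (x + a)
    rw [add_right_comm]
    exact hn _ z hz
  have hc : HasCompactSupport (fun x => F (x + a)) :=
    hF.2.comp_homeomorph (Homeomorph.addRight a)
  rw [integ_eq hF.2 hn, integ_eq hc h3, sig_translate _ hn]

theorem SB_mul {F c : (Fin d → ℚ_[p]) → ℂ_[p]} (hc : IsLocallyConstant c) (hF : F ∈ SB p d) :
    (fun x => c x * F x) ∈ SB p d :=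
  ⟨hc.mul hF.1, hF.2.mul_left⟩

/-- indicator function of `p^n ℤ_p^d` -/
noncomputable def ind (p : ℕ) [Fact p.Prime] (d : ℕ) (n : ℤ) : (Fin d → ℚ_[p]) → ℂ_[p] :=
  Set.indicator (L p d n : Set (Fin d → ℚ_[p])) (fun _ => 1)

theorem ind_of_mem {n : ℤ} {x : Fin d → ℚ_[p]} (h : x ∈ L p d n) : ind p d n x = 1 :=
  Set.indicator_of_mem (s := (L p d n : Set (Fin d → ℚ_[p]))) h _

theorem ind_of_notMem {n : ℤ} {x : Fin d → ℚ_[p]} (h : x ∉ L p d n) : ind p d n x = 0 :=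
  Set.indicator_of_notMem (s := (L p d n : Set (Fin d → ℚ_[p]))) h _

theorem ind_inv (n : ℤ) : Inv n (ind p d n) := by
  intro x z hz
  by_cases h : x ∈ L p d n
  · rw [ind_of_mem h, ind_of_mem ((L p d n).add_mem h hz)]
  · rw [ind_of_notMem h, ind_of_notMem]
    intro h2
    exact h (by simpa using (L p d n).sub_mem h2 hz)

theorem ind_mem (n : ℤ) : ind p d n ∈ SB p d := by
  refine mem_SB_of (m := n) (n := n) ?_ (ind_inv n)
  intro x hx
  by_contra h
  exact hx (ind_of_notMem h)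

theorem ind_zero_eq : ind p d 0 = unitBall p d := by
  unfold ind unitBall
  have h : (L p d 0 : Set (Fin d → ℚ_[p])) = {x | ∀ i, ‖x i‖ ≤ 1} := by
    ext x
    simp [mem_L]
  rw [h]

theorem sig_ind (n : ℤ) : sig n (ind p d n) = 1 := by
  unfold sig
  rw [finsum_eq_single _ ((0 : Fin d → ℚ_[p]) : (Fin d → ℚ_[p]) ⧸ L p d n)]
  · rw [(ind_inv n).out_eq, ind_of_mem (L p d n).zero_mem]
  · intro q hq
    apply ind_of_notMem
    intro h
    apply hq
    rw [← QuotientAddGroup.out_eq' q]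
    rw [QuotientAddGroup.eq]
    simpa using h

theorem integ_ind_ne_zero (n : ℤ) : integ (ind p d n) ≠ 0 := by
  have h1 : n ≤ ((n.toNat : ℕ) : ℤ) := Int.self_le_toNat n
  rw [integ_eq (ind_mem n).2 ((ind_inv n).mono h1), sig_refine h1 (ind_inv n) (ind_mem n).2,
    sig_ind, mul_one]
  exact div_ne_zero (Nat.cast_ne_zero.2 (L_relIndex_ne_zero _ _))
    (Nat.cast_ne_zero.2 (L_relIndex_ne_zero _ _))

theorem integ_ind_zero : integ (ind p d 0) = 1 := by
  have h := integ_eq (n := 0) (ind_mem (p := p) (d := d) 0).2 (by exact_mod_cast ind_inv 0)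
  rw [h]
  simp only [Nat.cast_zero]
  rw [sig_ind, AddSubgroup.relIndex_self]
  simp

/-- `k` is the conductor exponent of `ψ`: `ψ` is trivial on `p^k ℤ_p` and non-trivial at every
element of norm `p^{-(k-1)}`. -/
structure Cond (ψ : SmoothChar p) (k : ℤ) : Prop where
  triv : ∀ x : ℚ_[p], ‖x‖ ≤ (p : ℝ) ^ (-k) → ψ.toAddChar x = 1
  nontriv : ∀ x : ℚ_[p], ‖x‖ = (p : ℝ) ^ (-(k - 1)) → ψ.toAddChar x ≠ 1

theorem exists_cond (ψ : SmoothChar p) : ∃ k : ℤ, Cond ψ k := by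
  -- trivial on a neighbourhood of zero
  have h0 : ∃ n : ℤ, ∀ x : ℚ_[p], ‖x‖ ≤ (p : ℝ) ^ (-n) → ψ.toAddChar x = 1 := by
    obtain ⟨U, hU, h0U, hc⟩ := ψ.isLocallyConstant.exists_open 0
    obtain ⟨ε, hε, hb⟩ := Metric.isOpen_iff.1 hU 0 h0U
    obtain ⟨n, hn⟩ := exists_pow_lt_of_lt_one hε (inv_lt_one_of_one_lt₀ (one_lt_pR p))
    refine ⟨n, fun x hx => ?_⟩
    have h1 : x ∈ U := by
      apply hb
      rw [Metric.mem_ball, dist_zero_right]
      refine hx.trans_lt ?_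
      rwa [_root_.zpow_neg, zpow_natCast, ← inv_pow]
    have h2 := hc x h1
    simpa using h2
  obtain ⟨x0, hx0⟩ : ∃ x0 : ℚ_[p], ψ.toAddChar x0 ≠ 1 := by
    by_contra h
    push Not at h
    apply ψ.ne_one
    ext x
    simpa using congrArg id (h x)
  have hx0' : x0 ≠ 0 := by
    rintro rfl
    exact hx0 (by simp)
  obtain ⟨k, hk, hmin⟩ := Int.exists_least_of_bdd
    (P := fun n : ℤ => ∀ x : ℚ_[p], ‖x‖ ≤ (p : ℝ) ^ (-n) → ψ.toAddChar x = 1)
    ⟨x0.valuation, fun z hz => by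
      by_contra hlt
      push Not at hlt
      apply hx0
      apply hz
      rw [Padic.norm_eq_zpow_neg_valuation hx0']
      exact zpow_le_zpow_right₀ (one_lt_pR p).le (by omega)⟩ h0
  refine ⟨k, hk, fun u hu hψu => ?_⟩
  -- then `ψ` would be trivial on `p^{k-1} ℤ_p`
  have hu0 : u ≠ 0 := by
    rintro rfl
    rw [norm_zero] at hu
    exact (zpow_pos (pR_pos p) _).ne hu
  have h1 := hmin (k - 1) (fun x hx => by
    have h2 : ‖x / u‖ ≤ 1 := by
      rw [norm_div, hu]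
      exact div_le_one_of_le₀ hx (zpow_pos (pR_pos p) _).le
    obtain ⟨y, hy⟩ : ∃ y : ℤ_[p], (y : ℚ_[p]) = x / u := ⟨⟨x / u, h2⟩, rfl⟩
    obtain ⟨a, -, ha⟩ := PadicInt.exists_mem_range y
    have h3 : ‖x / u - a‖ ≤ (p : ℝ) ^ (-1 : ℤ) := by
      have h4 := (PadicInt.mem_nonunits.1 ((IsLocalRing.mem_maximalIdeal _).1 ha))
      have h5 := (PadicInt.norm_le_pow_iff_norm_lt_pow_add_one _ (-1)).2 (by simpa using h4)
      have h7 : ((y - (a : ℤ_[p]) : ℤ_[p]) : ℚ_[p]) = x / u - a := by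
        push_cast
        rw [hy]
      rw [← h7, ← PadicInt.norm_def]
      exact h5
    have h6 : x = (a : ℕ) • u + (x / u - a) * u := by
      rw [nsmul_eq_mul, sub_mul, div_mul_cancel₀ _ hu0]
      ring
    rw [h6, AddChar.map_add_eq_mul, AddChar.map_nsmul_eq_pow, hψu, one_pow, one_mul]
    apply hk
    rw [norm_mul, hu]
    calc ‖x / u - a‖ * (p : ℝ) ^ (-(k - 1)) ≤ (p : ℝ) ^ (-1 : ℤ) * (p : ℝ) ^ (-(k - 1)) :=
          mul_le_mul_of_nonneg_right h3 (zpow_pos (pR_pos p) _).le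
      _ = (p : ℝ) ^ (-k) := by
          rw [← zpow_add₀ (pR_pos p).ne']
          congr 1
          ring)
  omega

end Pool.Agent.Lib_MP_080eaf_nt
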