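import Mathlib
import Pool.Agent.Lib_MP_080eaf_nt.Integral

/-! The Fourier transform on `𝒮`. -/

namespace Pool.Agent.Lib_MP_080eaf_nt

open Matrix

variable {p : ℕ} [hp : Fact p.Prime] {d : ℕ}

theorem charDot_lc (ψ : SmoothChar p) (y : Fin d → ℚ_[p]) :
    IsLocallyConstant (fun x : Fin d → ℚ_[p] => ψ.toAddChar (y ⬝ᵥ x)) :=
  ψ.isLocallyConstant.comp_continuous (f := fun x : Fin d → ℚ_[p] => y ⬝ᵥ x)
    (by unfold dotProduct; fun_prop)

theorem norm_dot_le {a b : ℤ} {x y : Fin d → ℚ_[p]} (hx : x ∈ L p d a) (hy : y ∈ L p d b) :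
    ‖y ⬝ᵥ x‖ ≤ (p : ℝ) ^ (-(a + b)) := by
  unfold dotProduct
  refine IsUltrametricDist.norm_sum_le_of_forall_le_of_nonneg (zpow_pos (pR_pos p) _).le ?_
  intro i _
  rw [norm_mul]
  calc ‖y i‖ * ‖x i‖ ≤ (p : ℝ) ^ (-b) * (p : ℝ) ^ (-a) :=
        mul_le_mul (hy i) (hx i) (norm_nonneg _) (zpow_pos (pR_pos p) _).le
    _ = (p : ℝ) ^ (-(a + b)) := by
        rw [← zpow_add₀ (pR_pos p).ne']
        congr 1
        ring

theorem exists_bad {ψ : SmoothChar p} {k : ℤ} (hk : Cond ψ k) {n : ℤ} {y : Fin d → ℚ_[p]}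
    (hy : y ∉ L p d (k - n)) : ∃ z ∈ L p d n, ψ.toAddChar (y ⬝ᵥ z) ≠ 1 := by
  rw [mem_L] at hy
  push Not at hy
  obtain ⟨i, hi⟩ := hy
  have hyi : y i ≠ 0 := by
    intro h
    rw [h, norm_zero] at hi
    exact absurd hi (zpow_pos (pR_pos p) _).le.not_gt
  -- `u` with `‖u‖ = p^{-(k-1)} / ‖y i‖`
  obtain ⟨u, hu⟩ : ∃ u : ℚ_[p], ‖y i * u‖ = (p : ℝ) ^ (-(k - 1)) := by
    refine ⟨(y i)⁻¹ * (p : ℚ_[p]) ^ (k - 1), ?_⟩
    rw [← mul_assoc, mul_inv_cancel₀ hyi, one_mul, norm_zpow, Padic.norm_p, _root_.inv_zpow,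
      ← _root_.zpow_neg]
  refine ⟨Pi.single i u, ?_, ?_⟩
  · intro j
    by_cases hj : j = i
    · subst hj
      rw [Pi.single_eq_same]
      -- ‖u‖ = p^{-(k-1)} / ‖y j‖ ≤ p^{-n}
      rw [Padic.norm_eq_zpow_neg_valuation hyi] at hi
      have h1 : -(k - n) < -(y j).valuation :=
        (zpow_lt_zpow_iff_right₀ (one_lt_pR p)).1 hi
      rw [norm_mul, Padic.norm_eq_zpow_neg_valuation hyi] at hu
      have h2 : ‖u‖ = (p : ℝ) ^ (-(k - 1) + (y j).valuation) := by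
        have h3 : (p : ℝ) ^ (-(y j).valuation) ≠ 0 := (zpow_pos (pR_pos p) _).ne'
        apply mul_left_cancel₀ h3
        rw [hu, ← zpow_add₀ (pR_pos p).ne']
        congr 1
        ring
      rw [h2]
      exact zpow_le_zpow_right₀ (one_lt_pR p).le (by omega)
    · rw [Pi.single_eq_of_ne hj, norm_zero]
      exact (zpow_pos (pR_pos p) _).le
  · rw [dotProduct_single]
    exact hk.nontriv _ hu

/-- The Fourier transform as a function. -/
noncomputable def four (ψ : SmoothChar p) (F : (Fin d → ℚ_[p]) → ℂ_[p]) :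
    (Fin d → ℚ_[p]) → ℂ_[p] := fun y => integ (fun x => ψ.toAddChar (y ⬝ᵥ x) * F x)

theorem four_supp {ψ : SmoothChar p} {k : ℤ} (hk : Cond ψ k) {n : ℤ}
    {F : (Fin d → ℚ_[p]) → ℂ_[p]} (hF : F ∈ SB p d) (hn : Inv n F) {y : Fin d → ℚ_[p]}
    (hy : four ψ F y ≠ 0) : y ∈ L p d (k - n) := by
  by_contra h
  obtain ⟨z, hz, hz1⟩ := exists_bad hk h
  apply hy
  have h1 := integ_translate (SB_mul (charDot_lc ψ y) hF) z
  have h2 : (fun x => (fun x => ψ.toAddChar (y ⬝ᵥ x) * F x) (x + z))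
      = (ψ.toAddChar (y ⬝ᵥ z)) • (fun x => ψ.toAddChar (y ⬝ᵥ x) * F x) := by
    ext x
    simp only [Pi.smul_apply, smul_eq_mul]
    rw [dotProduct_add, AddChar.map_add_eq_mul, hn x z hz]
    ring
  rw [h2, integ_smul _ (SB_mul (charDot_lc ψ y) hF)] at h1
  have h3 : (ψ.toAddChar (y ⬝ᵥ z) - 1) * four ψ F y = 0 := by
    unfold four
    rw [sub_mul, one_mul, h1, sub_self]
  rcases mul_eq_zero.1 h3 with h4 | h4
  · exact absurd (sub_eq_zero.1 h4) hz1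
  · exact h4

theorem four_inv {ψ : SmoothChar p} {k : ℤ} (hk : Cond ψ k) {m : ℤ}
    {F : (Fin d → ℚ_[p]) → ℂ_[p]} (hm : ∀ x, F x ≠ 0 → x ∈ L p d m) :
    Inv (k - m) (four ψ F) := by
  intro y z hz
  unfold four
  congr 1
  ext x
  by_cases hx : F x = 0
  · rw [hx, mul_zero, mul_zero]
  · have h1 := norm_dot_le (hm x hx) hz
    rw [show m + (k - m) = k by ring] at h1
    rw [add_dotProduct, AddChar.map_add_eq_mul, hk.triv _ h1, mul_one]

theorem four_mem (ψ : SmoothChar p) {F : (Fin d → ℚ_[p]) → ℂ_[p]} (hF : F ∈ SB p d) :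
    four ψ F ∈ SB p d := by
  obtain ⟨k, hk⟩ := exists_cond ψ
  obtain ⟨n, hn⟩ := exists_level hF
  exact mem_SB_of (fun y hy => four_supp hk hF hn.inv hy) (four_inv hk hn.supp)

/-- The Fourier transform on `𝒮`. -/
noncomputable def FT (ψ : SmoothChar p) : SB p d →ₗ[ℂ_[p]] SB p d where
  toFun f := ⟨four ψ f, four_mem ψ f.2⟩
  map_add' f g := by
    ext y
    have h := integ_add (SB_mul (charDot_lc ψ y) f.2) (SB_mul (charDot_lc ψ y) g.2)
    simp only [four, Submodule.coe_add, Pi.add_apply, mul_add]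
    exact h
  map_smul' c f := by
    ext y
    have h := integ_smul c (SB_mul (charDot_lc ψ y) f.2)
    simp only [four, Submodule.coe_smul, Pi.smul_apply, smul_eq_mul, RingHom.id_apply]
    rw [← h]
    congr 1
    ext x
    simp only [Pi.smul_apply, smul_eq_mul]
    ring

theorem four_ind {ψ : SmoothChar p} {k : ℤ} (hk : Cond ψ k) (n : ℤ) :
    four ψ (ind p d n) = integ (ind p d n) • ind p d (k - n) := by
  ext y
  by_cases hy : y ∈ L p d (k - n)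
  · simp only [Pi.smul_apply, ind_of_mem hy, smul_eq_mul, mul_one]
    unfold four
    congr 1
    ext x
    by_cases hx : x ∈ L p d n
    · have h1 := norm_dot_le hx hy
      rw [show n + (k - n) = k by ring] at h1
      rw [hk.triv _ h1, one_mul]
    · rw [ind_of_notMem hx, mul_zero]
  · simp only [Pi.smul_apply, ind_of_notMem hy, smul_eq_mul, mul_zero]
    by_contra h
    exact hy (four_supp hk (ind_mem n) (ind_inv n) h)

/-- the action of `(a, b) ↦ (-b, a)` -/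
noncomputable def rot (w : Fin d ⊕ Fin d → ℚ_[p]) : Fin d ⊕ Fin d → ℚ_[p] :=
  Sum.elim (-(w ∘ Sum.inr)) (w ∘ Sum.inl)

theorem SB_translate {F : (Fin d → ℚ_[p]) → ℂ_[p]} (hF : F ∈ SB p d) (a : Fin d → ℚ_[p]) :
    (fun x => F (x + a)) ∈ SB p d :=
  ⟨hF.1.comp_continuous (f := fun x : Fin d → ℚ_[p] => x + a) (by fun_prop),
    hF.2.comp_homeomorph (Homeomorph.addRight a)⟩

theorem heis_FT (ψ : SmoothChar p) (w : Fin d ⊕ Fin d → ℚ_[p]) (t : ℚ_[p]) (f : SB p d) :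
    heis ψ w t (FT ψ f) = FT ψ (heis ψ (rot w) t f) := by
  ext y
  change heisFun ψ w t (four ψ f) y = four ψ (heisFun ψ (rot w) t f) y
  unfold heisFun four
  have h1 : (rot w) ∘ Sum.inl = -(w ∘ Sum.inr) := rfl
  have h2 : (rot w) ∘ Sum.inr = w ∘ Sum.inl := rfl
  rw [h1, h2]
  set a := w ∘ Sum.inl
  set b := w ∘ Sum.inr
  have h0 := SB_mul (charDot_lc ψ (y + a)) f.2
  rw [← integ_translate h0 (-b), ← integ_smul _ (SB_translate h0 (-b))]
  congr 1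
  ext x
  simp only [Pi.smul_apply, smul_eq_mul]
  have h4 : ψ.toAddChar (t + 1 / 2 * a ⬝ᵥ b) * ψ.toAddChar (b ⬝ᵥ y) *
      (ψ.toAddChar ((y + a) ⬝ᵥ (x + -b)) * (f : (Fin d → ℚ_[p]) → ℂ_[p]) (x + -b)) =
      ψ.toAddChar ((t + 1 / 2 * a ⬝ᵥ b) + b ⬝ᵥ y + (y + a) ⬝ᵥ (x + -b)) *
        (f : (Fin d → ℚ_[p]) → ℂ_[p]) (x + -b) := by
    simp only [AddChar.map_add_eq_mul]
    ring
  have h5 : ψ.toAddChar (y ⬝ᵥ x) * (ψ.toAddChar (t + 1 / 2 * -b ⬝ᵥ a) *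
      ψ.toAddChar (a ⬝ᵥ x) * (f : (Fin d → ℚ_[p]) → ℂ_[p]) (x + -b)) =
      ψ.toAddChar (y ⬝ᵥ x + (t + 1 / 2 * -b ⬝ᵥ a) + a ⬝ᵥ x) *
        (f : (Fin d → ℚ_[p]) → ℂ_[p]) (x + -b) := by
    simp only [AddChar.map_add_eq_mul]
    ring
  rw [h4, h5]
  congr 2
  simp only [add_dotProduct, dotProduct_add, neg_dotProduct, dotProduct_neg]
  rw [dotProduct_comm b a, dotProduct_comm b y]
  ring

theorem heis_add (ψ : SmoothChar p) (w w' : Fin d ⊕ Fin d → ℚ_[p]) (t t' : ℚ_[p]) (f : SB p d) :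
    ∃ u : ℚ_[p], heis ψ w t (heis ψ w' t' f) = heis ψ (w + w') u f := by
  refine ⟨t + t' + 1 / 2 * ((w ∘ Sum.inl) ⬝ᵥ (w' ∘ Sum.inr))
    - 1 / 2 * ((w' ∘ Sum.inl) ⬝ᵥ (w ∘ Sum.inr)), ?_⟩
  ext x
  change heisFun ψ w t (heisFun ψ w' t' f) x = heisFun ψ (w + w') _ f x
  unfold heisFun
  have h1 : (w + w') ∘ Sum.inl = w ∘ Sum.inl + w' ∘ Sum.inl := rfl
  have h2 : (w + w') ∘ Sum.inr = w ∘ Sum.inr + w' ∘ Sum.inr := rfl
  rw [h1, h2]
  set a := w ∘ Sum.inl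
  set b := w ∘ Sum.inr
  set a' := w' ∘ Sum.inl
  set b' := w' ∘ Sum.inr
  rw [← add_assoc x a a']
  simp only [← mul_assoc, ← AddChar.map_add_eq_mul]
  congr 2
  simp only [add_dotProduct, dotProduct_add]
  rw [dotProduct_comm b' a]
  ring

theorem heis_scalar (ψ : SmoothChar p) (w : Fin d ⊕ Fin d → ℚ_[p]) (t : ℚ_[p]) (f : SB p d) :
    heis ψ w t f = ψ.toAddChar t • heis ψ w 0 f := by
  ext x
  change heisFun ψ w t f x = ψ.toAddChar t * heisFun ψ w 0 f x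
  unfold heisFun
  rw [AddChar.map_add_eq_mul, zero_add]
  ring

/-- The span of the translates of `1_{ℤ_p^d}` under the Heisenberg group. -/
noncomputable def W (ψ : SmoothChar p) (d : ℕ) : Submodule ℂ_[p] (SB p d) :=
  Submodule.span ℂ_[p] (Set.range fun w : Fin d ⊕ Fin d → ℚ_[p] => heis ψ w 0 (phi0 p d))

theorem heis_mem_W (ψ : SmoothChar p) (w : Fin d ⊕ Fin d → ℚ_[p]) (t : ℚ_[p]) {f : SB p d}
    (hf : f ∈ W ψ d) : heis ψ w t f ∈ W ψ d := by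
  induction hf using Submodule.span_induction with
  | mem x hx =>
    obtain ⟨w', rfl⟩ := hx
    obtain ⟨u, hu⟩ := heis_add ψ w w' t 0 (phi0 p d)
    change heis ψ w t (heis ψ w' 0 (phi0 p d)) ∈ W ψ d
    rw [hu, heis_scalar]
    exact (W ψ d).smul_mem _ (Submodule.subset_span ⟨w + w', rfl⟩)
  | zero => simp
  | add x y _ _ hx hy => rw [map_add]; exact (W ψ d).add_mem hx hy
  | smul a x _ hx => rw [map_smul]; exact (W ψ d).smul_mem _ hx

end Pool.Agent.Lib_MP_080eaf_nt
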