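import Mathlib
import Pool.Agent.Lib_MP_080eaf_nt.Integral

/-! Roots of unity of `p`-power order in `ℂ_p`. -/

namespace Pool.Agent.Lib_MP_080eaf_nt

open Matrix

variable {p : ℕ} [hp : Fact p.Prime] {d : ℕ}

theorem norm_one_of_pow {ζ : ℂ_[p]} {n : ℕ} (hn : n ≠ 0) (h : ζ ^ n = 1) : ‖ζ‖ = 1 :=
  (pow_eq_one_iff_of_nonneg (norm_nonneg _) hn).1 (by rw [← norm_pow, h, norm_one])

theorem norm_pow_sub_one_le {ζ : ℂ_[p]} (h : ‖ζ‖ = 1) (i : ℕ) : ‖ζ ^ i - 1‖ ≤ ‖ζ - 1‖ := by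
  rw [← geom_sum_mul, norm_mul]
  refine mul_le_of_le_one_left (norm_nonneg _) ?_
  refine IsUltrametricDist.norm_sum_le_of_forall_le_of_nonneg zero_le_one ?_
  intro j _
  rw [norm_pow, h, one_pow]

theorem norm_sub_one_eq {ζ μ : ℂ_[p]} {n : ℕ} (hn : n ≠ 0) (h : IsPrimitiveRoot ζ n)
    (h' : IsPrimitiveRoot μ n) : ‖μ - 1‖ = ‖ζ - 1‖ := by
  have := NeZero.mk hn
  refine le_antisymm ?_ ?_
  · obtain ⟨i, -, rfl⟩ := h.eq_pow_of_pow_eq_one h'.pow_eq_one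
    exact norm_pow_sub_one_le (norm_one_of_pow hn h.pow_eq_one) i
  · obtain ⟨i, -, rfl⟩ := h'.eq_pow_of_pow_eq_one h.pow_eq_one
    exact norm_pow_sub_one_le (norm_one_of_pow hn h'.pow_eq_one) i

theorem norm_p_Cp : ‖(p : ℂ_[p])‖ = (p : ℝ)⁻¹ := by
  have h := PadicComplex.norm_extends' p (p : ℚ_[p])
  rw [Padic.norm_p] at h
  rw [← h]
  congr 1
  simp

theorem norm_pow_totient {ζ : ℂ_[p]} {N : ℕ} (h : IsPrimitiveRoot ζ (p ^ (N + 1))) :
    ‖ζ - 1‖ ^ (p ^ N * (p - 1)) = (p : ℝ)⁻¹ := by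
  have h0 : p ^ (N + 1) ≠ 0 := pow_ne_zero _ hp.1.ne_zero
  have h1 := Polynomial.eval_one_cyclotomic_prime_pow (R := ℂ_[p]) (p := p) N
  rw [Polynomial.cyclotomic_eq_prod_X_sub_primitiveRoots h, Polynomial.eval_prod] at h1
  have h2 := congrArg norm h1
  rw [norm_prod, norm_p_Cp] at h2
  rw [← h2]
  have h3 : ∀ μ ∈ primitiveRoots (p ^ (N + 1)) ℂ_[p],
      ‖Polynomial.eval 1 (Polynomial.X - Polynomial.C μ)‖ = ‖ζ - 1‖ := by
    intro μ hμ
    rw [Polynomial.eval_sub, Polynomial.eval_X, Polynomial.eval_C, norm_sub_rev]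
    exact norm_sub_one_eq h0 h ((mem_primitiveRoots (Nat.pos_of_ne_zero h0)).1 hμ)
  rw [Finset.prod_congr rfl h3, Finset.prod_const, h.card_primitiveRoots,
    Nat.totient_prime_pow_succ hp.1]

theorem prim_of_cond {ψ : SmoothChar p} {k : ℤ} (hk : Cond ψ k) {z : ℚ_[p]} {N : ℕ}
    (hz : ‖z‖ = (p : ℝ) ^ ((N : ℤ) - k)) : IsPrimitiveRoot (ψ.toAddChar z) (p ^ N) := by
  have h1 : ∀ m : ℕ, ‖(p ^ m : ℕ) • z‖ = (p : ℝ) ^ ((N : ℤ) - k - m) := by
    intro m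
    rw [nsmul_eq_mul, norm_mul, hz, Nat.cast_pow, norm_pow, Padic.norm_p, ← zpow_natCast,
      _root_.inv_zpow, ← _root_.zpow_neg, ← zpow_add₀ (pR_pos p).ne']
    congr 1
    ring
  have h2 : ψ.toAddChar z ^ p ^ N = 1 := by
    rw [← AddChar.map_nsmul_eq_pow]
    apply hk.triv
    rw [h1]
    apply le_of_eq
    congr 1
    ring
  cases N with
  | zero =>
    rw [pow_zero] at h2 ⊢
    rw [pow_one] at h2
    rw [h2]
    exact IsPrimitiveRoot.one
  | succ M =>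
    have h3 : ¬ ψ.toAddChar z ^ p ^ M = 1 := by
      rw [← AddChar.map_nsmul_eq_pow]
      apply hk.nontriv
      rw [h1]
      congr 1
      push_cast
      ring
    rw [← orderOf_eq_prime_pow h3 h2]
    exact IsPrimitiveRoot.orderOf _

/-- `∏_{0 < a < p^m} ‖ζ^{a²} - 1‖` -/
noncomputable def Q (m : ℕ) (ζ : ℂ_[p]) : ℝ :=
  ∏ a ∈ Finset.range (p ^ m), if a = 0 then (1 : ℝ) else ‖ζ ^ (a ^ 2) - 1‖

theorem Q_nonneg (m : ℕ) (ζ : ℂ_[p]) : 0 ≤ Q m ζ := by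
  unfold Q
  refine Finset.prod_nonneg fun a _ => ?_
  split_ifs
  · exact zero_le_one
  · exact norm_nonneg _

theorem Q_pow (m : ℕ) : ∀ ζ : ℂ_[p], IsPrimitiveRoot ζ (p ^ (2 * m)) →
    Q m ζ ^ (p ^ m * (p - 1)) = ((p : ℝ)⁻¹) ^ (p ^ m - 1) := by
  induction m with
  | zero =>
    intro ζ _
    simp [Q]
  | succ m ih =>
    intro ζ hζ
    have hp0 : p ≠ 0 := hp.1.ne_zero
    have hp1 : 1 < p := hp.1.one_lt
    have h0 : p ^ (2 * (m + 1)) ≠ 0 := pow_ne_zero _ hp0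
    -- split into multiples of `p` and units
    have hsplit : Q (m + 1) ζ = (∏ a ∈ (Finset.range (p ^ (m + 1))).filter (fun a => p ∣ a),
        if a = 0 then (1 : ℝ) else ‖ζ ^ (a ^ 2) - 1‖) *
        ∏ a ∈ (Finset.range (p ^ (m + 1))).filter (fun a => ¬ p ∣ a),
        if a = 0 then (1 : ℝ) else ‖ζ ^ (a ^ 2) - 1‖ :=
      (Finset.prod_filter_mul_prod_filter_not _ _ _).symm
    have hB : (∏ a ∈ (Finset.range (p ^ (m + 1))).filter (fun a => p ∣ a),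
        if a = 0 then (1 : ℝ) else ‖ζ ^ (a ^ 2) - 1‖) = Q m (ζ ^ (p ^ 2)) := by
      unfold Q
      have himg : (Finset.range (p ^ (m + 1))).filter (fun a => p ∣ a) =
          (Finset.range (p ^ m)).image (fun a => p * a) := by
        ext a
        simp only [Finset.mem_filter, Finset.mem_range, Finset.mem_image]
        constructor
        · rintro ⟨h1, c, rfl⟩
          refine ⟨c, ?_, rfl⟩
          rw [pow_succ, mul_comm] at h1
          exact lt_of_mul_lt_mul_right h1 (Nat.zero_le _)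
        · rintro ⟨c, hc, rfl⟩
          refine ⟨?_, dvd_mul_right _ _⟩
          rw [pow_succ, mul_comm]
          exact Nat.mul_lt_mul_of_pos_right hc hp.1.pos
      rw [himg, Finset.prod_image (fun a _ b _ h => Nat.eq_of_mul_eq_mul_left hp.1.pos h)]
      refine Finset.prod_congr rfl fun a _ => ?_
      by_cases ha : a = 0
      · simp [ha]
      · rw [if_neg ha, if_neg (mul_ne_zero hp0 ha), ← pow_mul, mul_pow]
    have hA : (∏ a ∈ (Finset.range (p ^ (m + 1))).filter (fun a => ¬ p ∣ a),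
        if a = 0 then (1 : ℝ) else ‖ζ ^ (a ^ 2) - 1‖) = ‖ζ - 1‖ ^ (p ^ m * (p - 1)) := by
      have hc : ((Finset.range (p ^ (m + 1))).filter (fun a => ¬ p ∣ a)).card
          = p ^ m * (p - 1) := by
        rw [← Nat.totient_prime_pow_succ hp.1, Nat.totient_eq_card_coprime]
        congr 1
        ext a
        simp only [Finset.mem_filter]
        rw [Nat.coprime_pow_left_iff (Nat.succ_pos m), Nat.Prime.coprime_iff_not_dvd hp.1]
      rw [← hc, ← Finset.prod_const]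
      refine Finset.prod_congr rfl fun a ha => ?_
      have ha2 : ¬ p ∣ a := (Finset.mem_filter.1 ha).2
      have ha0 : a ≠ 0 := by
        rintro rfl
        exact ha2 (dvd_zero _)
      rw [if_neg ha0]
      refine norm_sub_one_eq h0 hζ (hζ.pow_of_coprime _ ?_)
      exact Nat.Coprime.pow _ _ ((Nat.Prime.coprime_iff_not_dvd hp.1).2 ha2).symm
    have hζ2 : IsPrimitiveRoot (ζ ^ p ^ 2) (p ^ (2 * m)) := by
      refine hζ.pow (Nat.pos_of_ne_zero h0) ?_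
      rw [← pow_add]
      congr 1
      ring
    have hT := norm_pow_totient (N := 2 * m + 1) (ζ := ζ) (by
      rw [show 2 * m + 1 + 1 = 2 * (m + 1) by ring]; exact hζ)
    rw [hsplit, hA, hB, mul_pow]
    have e1 : p ^ (m + 1) * (p - 1) = (p ^ m * (p - 1)) * p := by ring
    have e2 : Q m (ζ ^ p ^ 2) ^ (p ^ (m + 1) * (p - 1)) = ((p : ℝ)⁻¹) ^ ((p ^ m - 1) * p) := by
      rw [e1, pow_mul, ih _ hζ2, ← pow_mul]
    have e3 : (‖ζ - 1‖ ^ (p ^ m * (p - 1))) ^ (p ^ (m + 1) * (p - 1)) = ((p : ℝ)⁻¹) ^ (p - 1) := by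
      rw [← pow_mul, show p ^ m * (p - 1) * (p ^ (m + 1) * (p - 1)) =
        (p ^ (2 * m + 1) * (p - 1)) * (p - 1) by ring, pow_mul, hT]
    rw [e2, e3, ← pow_add]
    congr 1
    have h5 : 1 ≤ p ^ m := Nat.one_le_pow _ _ hp.1.pos
    rw [pow_succ, Nat.sub_mul, one_mul]
    have h6 : p ≤ p ^ m * p := Nat.le_mul_of_pos_left p (by omega)
    omega

theorem Q_ge {m : ℕ} {ζ : ℂ_[p]} (h : IsPrimitiveRoot ζ (p ^ (2 * m))) : (p : ℝ)⁻¹ ≤ Q m ζ := by
  have h1 := Q_pow m ζ h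
  have hp1 : 1 < p := hp.1.one_lt
  have h5 : 1 ≤ p ^ m := Nat.one_le_pow _ _ hp.1.pos
  have hE : p ^ m * (p - 1) ≠ 0 := by
    apply mul_ne_zero <;> omega
  have h2 : ((p : ℝ)⁻¹) ^ (p ^ m * (p - 1)) ≤ Q m ζ ^ (p ^ m * (p - 1)) := by
    rw [h1]
    apply pow_le_pow_of_le_one (inv_nonneg.2 (pR_pos p).le)
      (inv_le_one_of_one_le₀ (one_lt_pR p).le)
    have h7 : p ^ m * 1 ≤ p ^ m * (p - 1) := Nat.mul_le_mul_left _ (by omega)
    omega
  exact le_of_pow_le_pow_left₀ hE (Q_nonneg m ζ) h2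

end Pool.Agent.Lib_MP_080eaf_nt
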