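import Mathlib
import Pool.Agent.Lib_MP_080eaf_nt.Fourier
import Pool.Agent.Lib_MP_080eaf_nt.Roots

/-! The translates of `1_{ℤ_p^d}` generate `𝒮`; Fourier inversion; intertwining operators. -/

namespace Pool.Agent.Lib_MP_080eaf_nt

open Matrix

variable {p : ℕ} [hp : Fact p.Prime] {d : ℕ}

theorem psi_ne_one {ψ : SmoothChar p} {k : ℤ} (hk : Cond ψ k) {v : ℚ_[p]}
    (hv : (p : ℝ) ^ (-k) < ‖v‖) : ψ.toAddChar v ≠ 1 := by
  have hv0 : v ≠ 0 := by
    rintro rfl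
    rw [norm_zero] at hv
    exact absurd hv (zpow_pos (pR_pos p) _).le.not_gt
  have h1 := Padic.norm_eq_zpow_neg_valuation hv0
  rw [h1] at hv
  have h2 : -k < -v.valuation := (zpow_lt_zpow_iff_right₀ (one_lt_pR p)).1 hv
  obtain ⟨N, hN⟩ : ∃ N : ℕ, (N : ℤ) + 1 = k - v.valuation :=
    ⟨(k - v.valuation - 1).toNat, by rw [Int.toNat_of_nonneg (by omega)]; ring⟩
  have h3 : IsPrimitiveRoot (ψ.toAddChar v) (p ^ (N + 1)) := by
    apply prim_of_cond hk
    rw [h1]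
    congr 1
    push_cast
    omega
  exact h3.ne_one (Nat.one_lt_pow (Nat.succ_ne_zero _) hp.1.one_lt)

theorem geo_sum {ψ : SmoothChar p} {k : ℤ} (hk : Cond ψ k) {m : ℕ} {z : ℚ_[p]}
    (hz : ‖z‖ = (p : ℝ) ^ ((m : ℤ) - k)) {u : ℚ_[p]} (hu : ‖u‖ ≤ 1) :
    ∑ c ∈ Finset.range (p ^ m), ψ.toAddChar (z * u) ^ c =
      if ‖u‖ ≤ (p : ℝ) ^ (-(m : ℤ)) then ((p : ℂ_[p]) ^ m) else 0 := by
  have hpk : (0 : ℝ) < (p : ℝ) ^ ((m : ℤ) - k) := zpow_pos (pR_pos p) _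
  split_ifs with h
  · have h1 : ψ.toAddChar (z * u) = 1 := by
      apply hk.triv
      rw [norm_mul, hz]
      calc (p : ℝ) ^ ((m : ℤ) - k) * ‖u‖ ≤ (p : ℝ) ^ ((m : ℤ) - k) * (p : ℝ) ^ (-(m : ℤ)) :=
            mul_le_mul_of_nonneg_left h hpk.le
        _ = (p : ℝ) ^ (-k) := by
            rw [← zpow_add₀ (pR_pos p).ne']
            congr 1
            ring
    rw [h1]
    simp
  · have h1 : ψ.toAddChar (z * u) ≠ 1 := by
      apply psi_ne_one hk
      rw [norm_mul, hz]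
      calc (p : ℝ) ^ (-k) = (p : ℝ) ^ ((m : ℤ) - k) * (p : ℝ) ^ (-(m : ℤ)) := by
            rw [← zpow_add₀ (pR_pos p).ne']
            congr 1
            ring
        _ < (p : ℝ) ^ ((m : ℤ) - k) * ‖u‖ := mul_lt_mul_of_pos_left (not_le.1 h) hpk
    have h2 : ψ.toAddChar (z * u) ^ p ^ m = 1 := by
      rw [← AddChar.map_nsmul_eq_pow]
      apply hk.triv
      rw [nsmul_eq_mul, norm_mul, norm_mul, hz, Nat.cast_pow, norm_pow, Padic.norm_p,
        ← zpow_natCast, _root_.inv_zpow, ← _root_.zpow_neg, ← mul_assoc,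
        ← zpow_add₀ (pR_pos p).ne']
      have h3 : -(m : ℤ) + ((m : ℤ) - k) = -k := by ring
      rw [h3]
      exact mul_le_of_le_one_right (zpow_pos (pR_pos p) _).le hu
    have h4 := geom_sum_mul (ψ.toAddChar (z * u)) (p ^ m)
    rw [h2, sub_self] at h4
    rcases mul_eq_zero.1 h4 with h5 | h5
    · exact h5
    · exact absurd (sub_eq_zero.1 h5) h1

theorem psi_sum (ψ : SmoothChar p) {ι : Type*} (s : Finset ι) (f : ι → ℚ_[p]) :
    ψ.toAddChar (∑ i ∈ s, f i) = ∏ i ∈ s, ψ.toAddChar (f i) := by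
  classical
  induction s using Finset.induction_on with
  | empty => simp
  | insert a s ha ih => rw [Finset.sum_insert ha, Finset.prod_insert ha,
      AddChar.map_add_eq_mul, ih]

/-- the vector `z • c` for `c` with natural number entries -/
noncomputable def vec (z : ℚ_[p]) (c : Fin d → ℕ) : Fin d → ℚ_[p] := fun i => z * c i

theorem psi_vec (ψ : SmoothChar p) (z : ℚ_[p]) (c : Fin d → ℕ) (x : Fin d → ℚ_[p]) :
    ψ.toAddChar (vec z c ⬝ᵥ x) = ∏ i, ψ.toAddChar (z * x i) ^ c i := by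
  unfold dotProduct
  rw [psi_sum]
  refine Finset.prod_congr rfl fun i _ => ?_
  rw [← AddChar.map_nsmul_eq_pow]
  congr 1
  unfold vec
  rw [nsmul_eq_mul]
  ring

theorem ind_expand {ψ : SmoothChar p} {k : ℤ} (hk : Cond ψ k) {m : ℕ} {z : ℚ_[p]}
    (hz : ‖z‖ = (p : ℝ) ^ ((m : ℤ) - k)) (x : Fin d → ℚ_[p]) :
    ∑ c ∈ Fintype.piFinset (fun _ : Fin d => Finset.range (p ^ m)),
      ψ.toAddChar (vec z c ⬝ᵥ x) * ind p d 0 x = ((p : ℂ_[p]) ^ m) ^ d * ind p d m x := by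
  by_cases hx : x ∈ L p d 0
  · rw [ind_of_mem hx]
    simp only [mul_one]
    have h1 : ∑ c ∈ Fintype.piFinset (fun _ : Fin d => Finset.range (p ^ m)),
        ψ.toAddChar (vec z c ⬝ᵥ x) = ∏ i, ∑ c ∈ Finset.range (p ^ m), ψ.toAddChar (z * x i) ^ c := by
      rw [Finset.prod_univ_sum]
      exact Finset.sum_congr rfl fun c _ => psi_vec ψ z c x
    rw [h1]
    have h2 : ∀ i, ‖x i‖ ≤ 1 := by
      intro i
      simpa using hx i
    rw [Finset.prod_congr rfl fun i _ => geo_sum hk hz (h2 i)]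
    by_cases hm : x ∈ L p d m
    · rw [ind_of_mem hm, Finset.prod_congr rfl fun i _ => if_pos (hm i), Finset.prod_const,
        Finset.card_univ, Fintype.card_fin, mul_one]
    · rw [ind_of_notMem hm, mul_zero]
      rw [mem_L] at hm
      push Not at hm
      obtain ⟨i, hi⟩ := hm
      exact Finset.prod_eq_zero (Finset.mem_univ i) (if_neg (not_le.2 hi))
  · have hm : x ∉ L p d m := fun h => hx (L_anti (by positivity) h)
    rw [ind_of_notMem hx, ind_of_notMem hm]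
    simp

theorem phi0_eq : (phi0 p d : (Fin d → ℚ_[p]) → ℂ_[p]) = ind p d 0 := ind_zero_eq.symm

theorem exists_norm_eq (p : ℕ) [hp : Fact p.Prime] (j : ℤ) : ∃ z : ℚ_[p], ‖z‖ = (p : ℝ) ^ j := by
  refine ⟨(p : ℚ_[p]) ^ (-j), ?_⟩
  rw [norm_zpow, Padic.norm_p, _root_.inv_zpow, ← _root_.zpow_neg, neg_neg]

theorem ind_mem_W (ψ : SmoothChar p) (m : ℕ) :
    (⟨ind p d m, ind_mem (m : ℤ)⟩ : SB p d) ∈ W ψ d := by
  obtain ⟨k, hk⟩ := exists_cond ψ
  obtain ⟨z, hz⟩ := exists_norm_eq p ((m : ℤ) - k)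
  have h1 : (⟨ind p d m, ind_mem (m : ℤ)⟩ : SB p d) = (((p : ℂ_[p]) ^ m) ^ d)⁻¹ •
      ∑ c ∈ Fintype.piFinset (fun _ : Fin d => Finset.range (p ^ m)),
        heis ψ (Sum.elim 0 (vec z c)) 0 (phi0 p d) := by
    ext x
    have h2 : (((p : ℂ_[p]) ^ m) ^ d) ≠ 0 :=
      pow_ne_zero _ (pow_ne_zero _ (Nat.cast_ne_zero.2 hp.1.ne_zero))
    have h3 := ind_expand hk hz x
    have h4 : ∀ c : Fin d → ℕ, (heis ψ (Sum.elim 0 (vec z c)) 0 (phi0 p d) :
        (Fin d → ℚ_[p]) → ℂ_[p]) x = ψ.toAddChar (vec z c ⬝ᵥ x) * ind p d 0 x := by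
      intro c
      change heisFun ψ (Sum.elim 0 (vec z c)) 0 (phi0 p d : (Fin d → ℚ_[p]) → ℂ_[p]) x = _
      unfold heisFun
      rw [phi0_eq]
      simp
    rw [Submodule.coe_smul, Pi.smul_apply, Submodule.coe_sum, Finset.sum_apply,
      Finset.sum_congr rfl fun c _ => h4 c, h3, smul_eq_mul, inv_mul_cancel_left₀ h2]
  rw [h1]
  refine (W ψ d).smul_mem _ ((W ψ d).sum_mem fun c _ => Submodule.subset_span ⟨_, rfl⟩)

theorem W_eq_top (ψ : SmoothChar p) : W ψ d = ⊤ := by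
  rw [eq_top_iff]
  intro f _
  obtain ⟨n, hn⟩ := exists_inv f.2
  have hfin := fin_supp (n : ℤ) f.2.2
  have h1 : f = ∑ q ∈ hfin.toFinset, (f : (Fin d → ℚ_[p]) → ℂ_[p]) q.out •
      heis ψ (Sum.elim (-q.out) 0) 0 (⟨ind p d n, ind_mem (n : ℤ)⟩ : SB p d) := by
    ext x
    rw [Submodule.coe_sum, Finset.sum_apply]
    have h2 : ∀ q : (Fin d → ℚ_[p]) ⧸ L p d n,
        (((f : (Fin d → ℚ_[p]) → ℂ_[p]) q.out • heis ψ (Sum.elim (-q.out) 0) 0
          (⟨ind p d n, ind_mem (n : ℤ)⟩ : SB p d) : SB p d) : (Fin d → ℚ_[p]) → ℂ_[p]) x =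
        (f : (Fin d → ℚ_[p]) → ℂ_[p]) q.out * ind p d n (x - q.out) := by
      intro q
      rw [Submodule.coe_smul, Pi.smul_apply, smul_eq_mul]
      congr 1
      change heisFun ψ (Sum.elim (-q.out) 0) 0 (ind p d n) x = _
      unfold heisFun
      simp [sub_eq_add_neg]
    rw [Finset.sum_congr rfl fun q _ => h2 q]
    have h3 : ∀ q : (Fin d → ℚ_[p]) ⧸ L p d n, q ≠ (x : (Fin d → ℚ_[p]) ⧸ L p d n) →
        ind p d n (x - q.out) = 0 := by
      intro q hq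
      apply ind_of_notMem
      intro h
      apply hq
      rw [← QuotientAddGroup.out_eq' q, QuotientAddGroup.eq]
      rwa [neg_add_eq_sub]
    have h4 : ind p d n (x - (x : (Fin d → ℚ_[p]) ⧸ L p d n).out) = 1 := by
      apply ind_of_mem
      have h5 : (((x : (Fin d → ℚ_[p]) ⧸ L p d n).out : Fin d → ℚ_[p]) :
          (Fin d → ℚ_[p]) ⧸ L p d n) = x := QuotientAddGroup.out_eq' _
      rw [QuotientAddGroup.eq] at h5
      rwa [← neg_add_eq_sub]
    by_cases hx : (f : (Fin d → ℚ_[p]) → ℂ_[p]) x = 0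
    · rw [hx, Finset.sum_eq_zero]
      intro q _
      by_cases hq : q = (x : (Fin d → ℚ_[p]) ⧸ L p d n)
      · rw [hq, hn.out_eq, hx, zero_mul]
      · rw [h3 q hq, mul_zero]
    · rw [Finset.sum_eq_single (x : (Fin d → ℚ_[p]) ⧸ L p d n)]
      · rw [hn.out_eq, h4, mul_one]
      · intro q _ hq
        rw [h3 q hq, mul_zero]
      · intro h
        exfalso
        apply h
        rw [Set.Finite.mem_toFinset, Function.mem_support, hn.out_eq]
        exact hx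
  rw [h1]
  exact (W ψ d).sum_mem fun q _ => (W ψ d).smul_mem _ (heis_mem_W ψ _ _ (ind_mem_W ψ n))

end Pool.Agent.Lib_MP_080eaf_nt
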