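import Mathlib
import Pool.Agent.Lib_MP_080eaf_nt.Gen

/-! Fourier inversion, chirps and the intertwining operators that are used. -/

namespace Pool.Agent.Lib_MP_080eaf_nt

open Matrix

variable {p : ℕ} [hp : Fact p.Prime] {d : ℕ}

/-- the reflection `f(x) ↦ f(-x)` -/
noncomputable def refl (p : ℕ) [Fact p.Prime] (d : ℕ) : SB p d →ₗ[ℂ_[p]] SB p d where
  toFun f := ⟨fun x => (f : (Fin d → ℚ_[p]) → ℂ_[p]) (-x),
    f.2.1.comp_continuous (f := fun x : Fin d → ℚ_[p] => -x) (by fun_prop),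
    f.2.2.comp_homeomorph (Homeomorph.neg _)⟩
  map_add' f g := rfl
  map_smul' c f := rfl

theorem refl_refl (f : SB p d) : refl p d (refl p d f) = f := by
  ext x
  change (f : (Fin d → ℚ_[p]) → ℂ_[p]) (- -x) = _
  rw [neg_neg]

/-- the inverse of `rot` -/
noncomputable def rotinv (w : Fin d ⊕ Fin d → ℚ_[p]) : Fin d ⊕ Fin d → ℚ_[p] :=
  Sum.elim (w ∘ Sum.inr) (-(w ∘ Sum.inl))

theorem rot_rotinv (w : Fin d ⊕ Fin d → ℚ_[p]) : rot (rotinv w) = w := by
  ext i
  rcases i with i | i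
  · simp [rot, rotinv]
  · simp [rot, rotinv]

theorem rotinv_rotinv (w : Fin d ⊕ Fin d → ℚ_[p]) : rotinv (rotinv w) = -w := by
  ext i
  rcases i with i | i
  · simp [rotinv]
  · simp [rotinv]

theorem FT_heis (ψ : SmoothChar p) (w : Fin d ⊕ Fin d → ℚ_[p]) (t : ℚ_[p]) (f : SB p d) :
    FT ψ (heis ψ w t f) = heis ψ (rotinv w) t (FT ψ f) := by
  rw [heis_FT, rot_rotinv]

theorem refl_heis (ψ : SmoothChar p) (w : Fin d ⊕ Fin d → ℚ_[p]) (t : ℚ_[p]) (f : SB p d) :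
    refl p d (heis ψ w t f) = heis ψ (-w) t (refl p d f) := by
  ext x
  change heisFun ψ w t (f : (Fin d → ℚ_[p]) → ℂ_[p]) (-x) =
    heisFun ψ (-w) t (fun x => (f : (Fin d → ℚ_[p]) → ℂ_[p]) (-x)) x
  unfold heisFun
  have h1 : (-w) ∘ Sum.inl = -(w ∘ Sum.inl) := rfl
  have h2 : (-w) ∘ Sum.inr = -(w ∘ Sum.inr) := rfl
  rw [h1, h2]
  simp only [neg_dotProduct, dotProduct_neg, neg_neg, neg_add]

theorem FT_FT {ψ : SmoothChar p} {k : ℤ} (hk : Cond ψ k) (f : SB p d) :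
    FT ψ (FT ψ f) = integ (ind p d k) • refl p d f := by
  have hf : f ∈ W ψ d := by rw [W_eq_top]; trivial
  induction hf using Submodule.span_induction with
  | mem x hx =>
    obtain ⟨w, rfl⟩ := hx
    change FT ψ (FT ψ (heis ψ w 0 (phi0 p d))) = _ • refl p d (heis ψ w 0 (phi0 p d))
    rw [FT_heis, FT_heis, rotinv_rotinv, refl_heis, ← map_smul]
    congr 1
    ext y
    change four ψ (four ψ (phi0 p d : (Fin d → ℚ_[p]) → ℂ_[p])) y =
      integ (ind p d k) * (phi0 p d : (Fin d → ℚ_[p]) → ℂ_[p]) (-y)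
    rw [phi0_eq, four_ind hk, integ_ind_zero, one_smul, sub_zero, four_ind hk, sub_self,
      Pi.smul_apply, smul_eq_mul]
    congr 1
    by_cases hy : y ∈ L p d 0
    · rw [ind_of_mem hy, ind_of_mem ((L p d 0).neg_mem hy)]
    · rw [ind_of_notMem hy, ind_of_notMem (fun h => hy (by simpa using (L p d 0).neg_mem h))]
  | zero => simp
  | add x y _ _ hx hy => rw [map_add, map_add, hx, hy, map_add, smul_add]
  | smul a x _ hx => rw [map_smul, map_smul, hx, map_smul, smul_comm]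

theorem FT_bijective (ψ : SmoothChar p) : Function.Bijective (FT (d := d) ψ) := by
  obtain ⟨k, hk⟩ := exists_cond ψ
  have hc := integ_ind_ne_zero (p := p) (d := d) k
  constructor
  · rw [injective_iff_map_eq_zero]
    intro f hf
    have h1 : FT ψ f = 0 := hf
    have h2 := FT_FT hk f
    rw [h1, map_zero] at h2
    have h3 : refl p d f = 0 := (smul_eq_zero.1 h2.symm).resolve_left hc
    rw [← refl_refl f, h3, map_zero]
  · intro f
    refine ⟨FT ψ ((integ (ind p d k))⁻¹ • refl p d f), ?_⟩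
    rw [FT_FT hk, map_smul, refl_refl, smul_smul, mul_inv_cancel₀ hc, one_smul]

/-- The Fourier transform as a linear bijection. -/
noncomputable def FTe (ψ : SmoothChar p) (d : ℕ) : SB p d ≃ₗ[ℂ_[p]] SB p d :=
  LinearEquiv.ofBijective (FT ψ) (FT_bijective ψ)

theorem FTe_apply (ψ : SmoothChar p) (f : SB p d) : FTe ψ d f = FT ψ f := rfl

/-- The chirp `x ↦ ψ(∑ s_i x_i²)`. -/
noncomputable def chirp (ψ : SmoothChar p) (s : Fin d → ℚ_[p]) : (Fin d → ℚ_[p]) → ℂ_[p] :=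
  fun x => ψ.toAddChar (∑ i, s i * x i ^ 2)

theorem chirp_lc (ψ : SmoothChar p) (s : Fin d → ℚ_[p]) : IsLocallyConstant (chirp ψ s) :=
  ψ.isLocallyConstant.comp_continuous (f := fun x : Fin d → ℚ_[p] => ∑ i, s i * x i ^ 2)
    (by fun_prop)

theorem chirp_neg_mul (ψ : SmoothChar p) (s : Fin d → ℚ_[p]) (x : Fin d → ℚ_[p]) :
    chirp ψ (-s) x * chirp ψ s x = 1 := by
  unfold chirp
  rw [← AddChar.map_add_eq_mul, ← Finset.sum_add_distrib]
  simp

/-- Multiplication by a chirp. -/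
noncomputable def MS (ψ : SmoothChar p) (s : Fin d → ℚ_[p]) : SB p d ≃ₗ[ℂ_[p]] SB p d where
  toFun f := ⟨fun x => chirp ψ s x * (f : (Fin d → ℚ_[p]) → ℂ_[p]) x, SB_mul (chirp_lc ψ s) f.2⟩
  invFun f := ⟨fun x => chirp ψ (-s) x * (f : (Fin d → ℚ_[p]) → ℂ_[p]) x,
    SB_mul (chirp_lc ψ (-s)) f.2⟩
  map_add' f g := by
    ext x
    exact mul_add _ _ _
  map_smul' c f := by
    ext x
    exact mul_left_comm _ _ _
  left_inv f := by
    ext x
    change chirp ψ (-s) x * (chirp ψ s x * (f : (Fin d → ℚ_[p]) → ℂ_[p]) x) = _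
    rw [← mul_assoc, chirp_neg_mul, one_mul]
  right_inv f := by
    ext x
    change chirp ψ s x * (chirp ψ (-s) x * (f : (Fin d → ℚ_[p]) → ℂ_[p]) x) = _
    rw [← mul_assoc, mul_comm (chirp ψ s x), chirp_neg_mul, one_mul]

/-- The symplectic matrix `(0 1; -1 0)`. -/
noncomputable def gJ (p : ℕ) [Fact p.Prime] (d : ℕ) : symplecticGroup (Fin d) ℚ_[p] :=
  ⟨fromBlocks 0 1 (-1) 0, by
    rw [SymplecticGroup.mem_iff, J, fromBlocks_transpose, fromBlocks_multiply,
      fromBlocks_multiply]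
    simp⟩

/-- The symplectic matrix `(1 S; 0 1)`, `S = diag(2 s)`. -/
noncomputable def gU (s : Fin d → ℚ_[p]) : symplecticGroup (Fin d) ℚ_[p] :=
  ⟨fromBlocks 1 (diagonal (fun i => 2 * s i)) 0 1, by
    rw [SymplecticGroup.mem_iff, J, fromBlocks_transpose, fromBlocks_multiply,
      fromBlocks_multiply]
    simp⟩

theorem isIntertwiner_FTe (ψ : SmoothChar p) : IsIntertwiner ψ (gJ p d) (FTe ψ d) := by
  intro w t f
  rw [FTe_apply, FTe_apply, heis_FT]
  have h : rot w = w ᵥ* ((gJ p d : symplecticGroup (Fin d) ℚ_[p]) :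
      Matrix (Fin d ⊕ Fin d) (Fin d ⊕ Fin d) ℚ_[p]) := by
    change rot w = w ᵥ* (fromBlocks 0 1 (-1) 0)
    rw [vecMul_fromBlocks]
    unfold rot
    simp [vecMul_neg]
  rw [h]

theorem isIntertwiner_MS (ψ : SmoothChar p) (s : Fin d → ℚ_[p]) :
    IsIntertwiner ψ (gU s) (MS ψ s) := by
  intro w t f
  ext x
  have hw : w ᵥ* ((gU s : symplecticGroup (Fin d) ℚ_[p]) :
      Matrix (Fin d ⊕ Fin d) (Fin d ⊕ Fin d) ℚ_[p]) =
      Sum.elim (w ∘ Sum.inl) (fun i => w (Sum.inr i) + 2 * s i * w (Sum.inl i)) := by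
    change w ᵥ* (fromBlocks 1 (diagonal (fun i => 2 * s i)) 0 1) = _
    rw [vecMul_fromBlocks]
    ext i
    rcases i with i | i
    · simp
    · simp [vecMul_diagonal]
      ring
  rw [hw]
  change heisFun ψ w t (fun x => chirp ψ s x * (f : (Fin d → ℚ_[p]) → ℂ_[p]) x) x =
    chirp ψ s x * heisFun ψ (Sum.elim (w ∘ Sum.inl)
      (fun i => w (Sum.inr i) + 2 * s i * w (Sum.inl i))) t (f : (Fin d → ℚ_[p]) → ℂ_[p]) x
  unfold heisFun chirp
  rw [Sum.elim_comp_inl, Sum.elim_comp_inr]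
  set a := w ∘ Sum.inl with ha
  have h1 : ∀ i, w (Sum.inl i) = a i := fun i => rfl
  simp only [← mul_assoc, ← AddChar.map_add_eq_mul]
  congr 2
  unfold dotProduct
  simp only [Finset.mul_sum, Pi.add_apply, Function.comp_apply, h1]
  have e1 : ∀ u v w : Fin d → ℚ_[p], t + ∑ i, u i + ∑ i, v i + ∑ i, w i =
      t + ∑ i, (u i + v i + w i) := by
    intro u v w
    rw [Finset.sum_add_distrib, Finset.sum_add_distrib]
    ring
  have e2 : ∀ u v w : Fin d → ℚ_[p], ∑ i, w i + (t + ∑ i, u i + ∑ i, v i) =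
      t + ∑ i, (u i + v i + w i) := by
    intro u v w
    rw [Finset.sum_add_distrib, Finset.sum_add_distrib]
    ring
  rw [e1, e2]
  congr 1
  refine Finset.sum_congr rfl fun i _ => ?_
  ring

theorem IsIntertwiner.comp {ψ : SmoothChar p} {g h : symplecticGroup (Fin d) ℚ_[p]}
    {T U : SB p d ≃ₗ[ℂ_[p]] SB p d} (hT : IsIntertwiner ψ g T) (hU : IsIntertwiner ψ h U) :
    IsIntertwiner ψ (g * h) (U.trans T) := by
  intro w t f
  rw [LinearEquiv.trans_apply, LinearEquiv.trans_apply, hT, hU, vecMul_vecMul]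
  rfl

end Pool.Agent.Lib_MP_080eaf_nt
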