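import Mathlib
import Pool.Agent.Lib_MP_080eaf_nt.Inter

/-! The sup norm, boundedness of the family of norms, and the main estimate. -/

namespace Pool.Agent.Lib_MP_080eaf_nt

open Matrix

variable {p : ℕ} [hp : Fact p.Prime] {d : ℕ}

theorem norm_psi (ψ : SmoothChar p) (x : ℚ_[p]) : ‖ψ.toAddChar x‖ = 1 := by
  obtain ⟨k, hk⟩ := exists_cond ψ
  obtain ⟨n, hn⟩ : ∃ n : ℕ, ‖x‖ * ((p : ℝ)⁻¹) ^ n ≤ (p : ℝ) ^ (-k) := by
    have h1 : Filter.Tendsto (fun n : ℕ => ‖x‖ * ((p : ℝ)⁻¹) ^ n) Filter.atTop (nhds (‖x‖ * 0)) :=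
      (tendsto_pow_atTop_nhds_zero_of_lt_one (inv_nonneg.2 (pR_pos p).le)
        (inv_lt_one_of_one_lt₀ (one_lt_pR p))).const_mul _
    rw [mul_zero] at h1
    exact ((h1.eventually (gt_mem_nhds (zpow_pos (pR_pos p) (-k)))).exists).imp fun n h => h.le
  refine norm_one_of_pow (n := p ^ n) (pow_ne_zero _ hp.1.ne_zero) ?_
  rw [← AddChar.map_nsmul_eq_pow]
  apply hk.triv
  rw [nsmul_eq_mul, norm_mul, Nat.cast_pow, norm_pow, Padic.norm_p, mul_comm]
  exact hn

theorem bdd_SB (f : SB p d) :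
    BddAbove (Set.range fun x : Fin d → ℚ_[p] => ‖(f : (Fin d → ℚ_[p]) → ℂ_[p]) x‖) := by
  obtain ⟨C, hC⟩ := f.2.2.exists_bound_of_continuous f.2.1.continuous
  exact ⟨C, by rintro _ ⟨x, rfl⟩; exact hC x⟩

theorem le_supNorm (f : SB p d) (x : Fin d → ℚ_[p]) :
    ‖(f : (Fin d → ℚ_[p]) → ℂ_[p]) x‖ ≤ supNorm f :=
  le_ciSup (bdd_SB f) x

theorem supNorm_le {f : SB p d} {C : ℝ}
    (h : ∀ x, ‖(f : (Fin d → ℚ_[p]) → ℂ_[p]) x‖ ≤ C) : supNorm f ≤ C :=
  ciSup_le h

theorem supNorm_nonneg (f : SB p d) : 0 ≤ supNorm f := (norm_nonneg _).trans (le_supNorm f 0)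

theorem supNorm_add (f g : SB p d) : supNorm (f + g) ≤ max (supNorm f) (supNorm g) := by
  apply supNorm_le
  intro x
  rw [Submodule.coe_add, Pi.add_apply]
  exact (IsUltrametricDist.norm_add_le_max _ _).trans (max_le_max (le_supNorm f x) (le_supNorm g x))

theorem supNorm_smul_le (c : ℂ_[p]) (f : SB p d) : supNorm (c • f) ≤ ‖c‖ * supNorm f := by
  apply supNorm_le
  intro x
  rw [Submodule.coe_smul, Pi.smul_apply, norm_smul]
  exact mul_le_mul_of_nonneg_left (le_supNorm f x) (norm_nonneg _)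

theorem supNorm_smul (c : ℂ_[p]) (f : SB p d) : supNorm (c • f) = ‖c‖ * supNorm f := by
  refine le_antisymm (supNorm_smul_le c f) ?_
  by_cases hc : c = 0
  · rw [hc, norm_zero, zero_mul]
    exact supNorm_nonneg _
  · have h := supNorm_smul_le c⁻¹ (c • f)
    rw [smul_smul, inv_mul_cancel₀ hc, one_smul, norm_inv] at h
    rwa [inv_mul_eq_div, le_div_iff₀ (norm_pos_iff.2 hc), mul_comm] at h

theorem supNorm_pos {f : SB p d} (hf : f ≠ 0) : 0 < supNorm f := by
  obtain ⟨x, hx⟩ : ∃ x, (f : (Fin d → ℚ_[p]) → ℂ_[p]) x ≠ 0 := by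
    by_contra h
    push Not at h
    exact hf (Subtype.ext (funext h))
  exact (norm_pos_iff.2 hx).trans_le (le_supNorm f x)

theorem supNorm_heis_le (ψ : SmoothChar p) (w : Fin d ⊕ Fin d → ℚ_[p]) (t : ℚ_[p])
    (f : SB p d) : supNorm (heis ψ w t f) ≤ supNorm f := by
  apply supNorm_le
  intro x
  change ‖heisFun ψ w t (f : (Fin d → ℚ_[p]) → ℂ_[p]) x‖ ≤ _
  unfold heisFun
  rw [norm_mul, norm_mul, norm_psi, norm_psi, one_mul, one_mul]
  exact le_supNorm f _

theorem phi0_ne_zero : phi0 p d ≠ 0 := by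
  intro h
  have h1 : (phi0 p d : (Fin d → ℚ_[p]) → ℂ_[p]) 0 = 0 := by rw [h]; rfl
  rw [phi0_eq, ind_of_mem (L p d 0).zero_mem] at h1
  exact one_ne_zero h1

/-- All norms attached to points of `X` are uniformly bounded at each `f`. -/
theorem exists_bound (ψ : SmoothChar p) (f : SB p d) : ∃ C : ℝ, 0 ≤ C ∧
    ∀ (g : symplecticGroup (Fin d) ℚ_[p]) (T : SB p d ≃ₗ[ℂ_[p]] SB p d),
      IsIntertwiner ψ g T → supNorm (T f) ≤ C * supNorm (T (phi0 p d)) := by
  have hf : f ∈ W ψ d := by rw [W_eq_top]; trivial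
  induction hf using Submodule.span_induction with
  | mem x hx =>
    obtain ⟨w, rfl⟩ := hx
    refine ⟨1, zero_le_one, fun g T hT => ?_⟩
    have h1 := hT (w ᵥ* ((g⁻¹ : symplecticGroup (Fin d) ℚ_[p]) :
      Matrix (Fin d ⊕ Fin d) (Fin d ⊕ Fin d) ℚ_[p])) 0 (phi0 p d)
    have h2 : ((g⁻¹ : symplecticGroup (Fin d) ℚ_[p]) :
        Matrix (Fin d ⊕ Fin d) (Fin d ⊕ Fin d) ℚ_[p]) *
        (g : Matrix (Fin d ⊕ Fin d) (Fin d ⊕ Fin d) ℚ_[p]) = 1 := by
      have h3 : (g⁻¹ * g : symplecticGroup (Fin d) ℚ_[p]) = 1 := inv_mul_cancel g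
      exact congrArg Subtype.val h3
    rw [vecMul_vecMul, h2, vecMul_one] at h1
    change supNorm (T (heis ψ w 0 (phi0 p d))) ≤ _
    rw [← h1, one_mul]
    exact supNorm_heis_le ψ _ _ _
  | zero =>
    refine ⟨0, le_rfl, fun g T hT => ?_⟩
    rw [map_zero, zero_mul]
    apply supNorm_le
    intro x
    simp
  | add x y _ _ hx hy =>
    obtain ⟨C, hC, h1⟩ := hx
    obtain ⟨D, hD, h2⟩ := hy
    refine ⟨max C D, hC.trans (le_max_left _ _), fun g T hT => ?_⟩
    rw [map_add]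
    refine (supNorm_add _ _).trans (max_le ?_ ?_)
    · exact (h1 g T hT).trans (mul_le_mul_of_nonneg_right (le_max_left _ _) (supNorm_nonneg _))
    · exact (h2 g T hT).trans (mul_le_mul_of_nonneg_right (le_max_right _ _) (supNorm_nonneg _))
  | smul a x _ hx =>
    obtain ⟨C, hC, h1⟩ := hx
    refine ⟨‖a‖ * C, mul_nonneg (norm_nonneg _) hC, fun g T hT => ?_⟩
    rw [map_smul, supNorm_smul, mul_assoc]
    exact mul_le_mul_of_nonneg_left (h1 g T hT) (norm_nonneg _)

theorem le_normOn {ψ : SmoothChar p} {I : Set (X p d)} {g : symplecticGroup (Fin d) ℚ_[p]}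
    (hg : (Quotient.mk _ g : X p d) ∈ I) {T : SB p d ≃ₗ[ℂ_[p]] SB p d}
    (hT : IsIntertwiner ψ g T) (f : SB p d) :
    supNorm (T f) / supNorm (T (phi0 p d)) ≤ normOn ψ I f := by
  obtain ⟨C, hC, h⟩ := exists_bound ψ f
  refine le_csSup ⟨C, ?_⟩ ⟨g, hg, T, hT, rfl⟩
  rintro r ⟨g', -, T', hT', rfl⟩
  have h1 : T' (phi0 p d) ≠ 0 := by
    rw [Ne, LinearEquiv.map_eq_zero_iff]
    exact phi0_ne_zero
  rw [div_le_iff₀ (supNorm_pos h1)]
  exact h g' T' hT'

/-- The sup norm as a seminorm. -/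
noncomputable def supSeminorm (p : ℕ) [Fact p.Prime] (d : ℕ) : Seminorm ℂ_[p] (SB p d) :=
  Seminorm.of supNorm (fun f g => (supNorm_add f g).trans
    (max_le_add_of_nonneg (supNorm_nonneg f) (supNorm_nonneg g))) supNorm_smul

/-- `F` has all its chirp integrals bounded by `B`. -/
def Bd (ψ : SmoothChar p) (k : ℤ) (B : ℝ) (F : (Fin d → ℚ_[p]) → ℂ_[p]) : Prop :=
  ∀ s y : Fin d → ℚ_[p], (∀ i, ‖s i‖ ≤ (p : ℝ) ^ (-k)) →
    ‖integ (fun x => ψ.toAddChar (y ⬝ᵥ x) * (chirp ψ s x * F x))‖ ≤ B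

/-- Multiplication by `u` preserves the bound `Bd`. -/
structure Good (ψ : SmoothChar p) (k : ℤ) (u : (Fin d → ℚ_[p]) → ℂ_[p]) : Prop where
  lc : IsLocallyConstant u
  bd : ∀ (B : ℝ) (F : (Fin d → ℚ_[p]) → ℂ_[p]), 0 ≤ B → F ∈ SB p d → Bd ψ k B F →
    Bd ψ k B (fun x => u x * F x)

theorem Good.mul {ψ : SmoothChar p} {k : ℤ} {u v : (Fin d → ℚ_[p]) → ℂ_[p]} (hu : Good ψ k u)
    (hv : Good ψ k v) : Good ψ k (fun x => u x * v x) where
  lc := hu.lc.mul hv.lc
  bd := by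
    intro B F hB hF h
    have h1 := hu.bd B _ hB (SB_mul hv.lc hF) (hv.bd B F hB hF h)
    have h2 : (fun x => u x * v x * F x) = (fun x => u x * (v x * F x)) := by
      ext x
      ring
    rw [h2]
    exact h1

theorem Good.add {ψ : SmoothChar p} {k : ℤ} {u v : (Fin d → ℚ_[p]) → ℂ_[p]} (hu : Good ψ k u)
    (hv : Good ψ k v) : Good ψ k (fun x => u x + v x) where
  lc := hu.lc.add hv.lc
  bd := by
    intro B F hB hF h s y hs
    have h1 := hu.bd B F hB hF h s y hs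
    have h2 := hv.bd B F hB hF h s y hs
    have h3 : (fun x => ψ.toAddChar (y ⬝ᵥ x) * (chirp ψ s x * ((u x + v x) * F x))) =
        (fun x => ψ.toAddChar (y ⬝ᵥ x) * (chirp ψ s x * (u x * F x))) +
        (fun x => ψ.toAddChar (y ⬝ᵥ x) * (chirp ψ s x * (v x * F x))) := by
      ext x
      simp only [Pi.add_apply]
      ring
    rw [h3, integ_add (SB_mul (charDot_lc ψ y) (SB_mul (chirp_lc ψ s) (SB_mul hu.lc hF)))
      (SB_mul (charDot_lc ψ y) (SB_mul (chirp_lc ψ s) (SB_mul hv.lc hF)))]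
    exact (IsUltrametricDist.norm_add_le_max _ _).trans (max_le h1 h2)

theorem Good.const {ψ : SmoothChar p} {k : ℤ} {c : ℂ_[p]} (hc : ‖c‖ ≤ 1) :
    Good (d := d) ψ k (fun _ => c) where
  lc := IsLocallyConstant.const c
  bd := by
    intro B F hB hF h s y hs
    have h1 := h s y hs
    have h3 : (fun x => ψ.toAddChar (y ⬝ᵥ x) * (chirp ψ s x * (c * F x))) =
        c • (fun x => ψ.toAddChar (y ⬝ᵥ x) * (chirp ψ s x * F x)) := by
      ext x
      simp only [Pi.smul_apply, smul_eq_mul]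
      ring
    rw [h3, integ_smul _ (SB_mul (charDot_lc ψ y) (SB_mul (chirp_lc ψ s) hF)), norm_mul]
    exact (mul_le_of_le_one_left (norm_nonneg _) hc).trans h1

theorem Good.sum {ψ : SmoothChar p} {k : ℤ} {ι : Type*} (s : Finset ι)
    {u : ι → (Fin d → ℚ_[p]) → ℂ_[p]} (hu : ∀ i ∈ s, Good ψ k (u i)) :
    Good ψ k (fun x => ∑ i ∈ s, u i x) := by
  classical
  induction s using Finset.induction_on with
  | empty =>
    simp only [Finset.sum_empty]
    exact Good.const (by simp)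
  | insert a s ha ih =>
    have h1 : (fun x => ∑ i ∈ insert a s, u i x) = (fun x => u a x + ∑ i ∈ s, u i x) := by
      ext x
      rw [Finset.sum_insert ha]
    rw [h1]
    exact (hu a (Finset.mem_insert_self a s)).add
      (ih fun i hi => hu i (Finset.mem_insert_of_mem hi))

theorem Good.prod {ψ : SmoothChar p} {k : ℤ} {ι : Type*} (s : Finset ι)
    {u : ι → (Fin d → ℚ_[p]) → ℂ_[p]} (hu : ∀ i ∈ s, Good ψ k (u i)) :
    Good ψ k (fun x => ∏ i ∈ s, u i x) := by
  classical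
  induction s using Finset.induction_on with
  | empty =>
    simp only [Finset.prod_empty]
    exact Good.const (by simp)
  | insert a s ha ih =>
    have h1 : (fun x => ∏ i ∈ insert a s, u i x) = (fun x => u a x * ∏ i ∈ s, u i x) := by
      ext x
      rw [Finset.prod_insert ha]
    rw [h1]
    exact (hu a (Finset.mem_insert_self a s)).mul
      (ih fun i hi => hu i (Finset.mem_insert_of_mem hi))

/-- The basic good functions. -/
theorem Good.atom {ψ : SmoothChar p} {k : ℤ} (i : Fin d) {s : ℚ_[p]}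
    (hs : ‖s‖ ≤ (p : ℝ) ^ (-k)) (y c : ℚ_[p]) :
    Good ψ k (fun x => ψ.toAddChar (s * x i ^ 2 + y * x i + c)) where
  lc := ψ.isLocallyConstant.comp_continuous
    (f := fun x : Fin d → ℚ_[p] => s * x i ^ 2 + y * x i + c) (by fun_prop)
  bd := by
    intro B F hB hF h s' y' hs'
    have h1 := h (s' + Pi.single i s) (y' + Pi.single i y) (fun j => by
      rw [Pi.add_apply]
      refine (IsUltrametricDist.norm_add_le_max _ _).trans (max_le (hs' j) ?_)
      by_cases hj : j = i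
      · subst hj
        rwa [Pi.single_eq_same]
      · rw [Pi.single_eq_of_ne hj, norm_zero]
        exact (zpow_pos (pR_pos p) _).le)
    have h2 : (fun x => ψ.toAddChar (y' ⬝ᵥ x) * (chirp ψ s' x *
        (ψ.toAddChar (s * x i ^ 2 + y * x i + c) * F x))) =
        (ψ.toAddChar c) • (fun x => ψ.toAddChar ((y' + Pi.single i y) ⬝ᵥ x) *
          (chirp ψ (s' + Pi.single i s) x * F x)) := by
      ext x
      simp only [Pi.smul_apply, smul_eq_mul]
      have h3 : ∑ j, (s' + Pi.single i s : Fin d → ℚ_[p]) j * x j ^ 2 = ∑ j, s' j * x j ^ 2 + s * x i ^ 2 := by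
        have h4 : ∀ j, (s' + Pi.single i s : Fin d → ℚ_[p]) j * x j ^ 2 = s' j * x j ^ 2 +
            (Pi.single i s : Fin d → ℚ_[p]) j * x j ^ 2 := by
          intro j
          rw [Pi.add_apply, add_mul]
        rw [Finset.sum_congr rfl fun j _ => h4 j, Finset.sum_add_distrib]
        congr 1
        rw [Finset.sum_eq_single i]
        · rw [Pi.single_eq_same]
        · intro j _ hj
          rw [Pi.single_eq_of_ne hj, zero_mul]
        · intro h
          exact absurd (Finset.mem_univ i) h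
      unfold chirp
      rw [h3, add_dotProduct, single_dotProduct]
      simp only [AddChar.map_add_eq_mul]
      ring
    rw [h2, integ_smul _ (SB_mul (charDot_lc ψ _) (SB_mul (chirp_lc ψ _) hF)), norm_mul,
      norm_psi, one_mul]
    exact h1

end Pool.Agent.Lib_MP_080eaf_nt
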