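import Mathlib
import Pool.Agent.Lib_MP_080eaf_nt.Norms

/-! The main estimate. -/

namespace Pool.Agent.Lib_MP_080eaf_nt

open Matrix

variable {p : ℕ} [hp : Fact p.Prime] {d : ℕ}

theorem norm_nat_cast_lt {m c : ℕ} (hc : c < p ^ m) (h : ‖(c : ℚ_[p])‖ ≤ (p : ℝ) ^ (-(m : ℤ))) :
    c = 0 := by
  have h1 := (Padic.norm_int_le_pow_iff_dvd (p := p) (c : ℤ) m).1 (by simpa using h)
  have h2 : p ^ m ∣ c := by exact_mod_cast h1
  exact Nat.eq_zero_of_dvd_of_lt h2 hc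

theorem integ_ind_pow (ψ : SmoothChar p) {k : ℤ} (hk : Cond ψ k) (m : ℕ) :
    ((p : ℂ_[p]) ^ m) ^ d * integ (ind p d m) = 1 := by
  obtain ⟨z, hz⟩ := exists_norm_eq p ((m : ℤ) - k)
  have h1 : ((p : ℂ_[p]) ^ m) ^ d • ind p d m =
      ∑ c ∈ Fintype.piFinset (fun _ : Fin d => Finset.range (p ^ m)),
        (fun x => ψ.toAddChar (vec z c ⬝ᵥ x) * ind p d 0 x) := by
    ext x
    rw [Finset.sum_apply, Pi.smul_apply, smul_eq_mul, ← ind_expand hk hz x]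
  have h2 : ∀ (s : Finset (Fin d → ℕ)) (F : (Fin d → ℕ) → (Fin d → ℚ_[p]) → ℂ_[p]),
      (∀ c, F c ∈ SB p d) → integ (∑ c ∈ s, F c) = ∑ c ∈ s, integ (F c) := by
    intro s F hF
    classical
    induction s using Finset.induction_on with
    | empty =>
      rw [Finset.sum_empty, Finset.sum_empty]
      have h := integ_smul (0 : ℂ_[p]) (SB p d).zero_mem
      rw [smul_zero, zero_mul] at h
      exact h
    | insert a s ha ih =>
      rw [Finset.sum_insert ha, Finset.sum_insert ha,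
        integ_add (hF a) ((SB p d).sum_mem fun c _ => hF c), ih]
  rw [← integ_smul _ (ind_mem (m : ℤ)), h1,
    h2 _ _ (fun c => SB_mul (charDot_lc ψ _) (ind_mem 0))]
  have h3 : ∀ c : Fin d → ℕ, integ (fun x => ψ.toAddChar (vec z c ⬝ᵥ x) * ind p d 0 x) =
      ind p d k (vec z c) := by
    intro c
    have h := congrFun (four_ind (d := d) hk 0) (vec z c)
    rw [integ_ind_zero, one_smul, sub_zero] at h
    exact h
  rw [Finset.sum_congr rfl fun c _ => h3 c, Finset.sum_eq_single (0 : Fin d → ℕ)]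
  · apply ind_of_mem
    intro i
    simp only [vec, Pi.zero_apply, Nat.cast_zero, mul_zero, norm_zero]
    exact (zpow_pos (pR_pos p) _).le
  · intro c hc hc0
    apply ind_of_notMem
    intro h
    apply hc0
    ext i
    rw [Pi.zero_apply]
    refine norm_nat_cast_lt (Finset.mem_range.1 (Fintype.mem_piFinset.1 hc i)) ?_
    have h4 := h i
    unfold vec at h4
    rw [norm_mul, hz] at h4
    have h5 : (p : ℝ) ^ (-k) = (p : ℝ) ^ ((m : ℤ) - k) * (p : ℝ) ^ (-(m : ℤ)) := by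
      rw [← zpow_add₀ (pR_pos p).ne']
      congr 1
      ring
    rw [h5] at h4
    exact le_of_mul_le_mul_left h4 (zpow_pos (pR_pos p) _)
  · intro h
    exfalso
    apply h
    rw [Fintype.mem_piFinset]
    intro i
    rw [Pi.zero_apply, Finset.mem_range]
    exact pow_pos hp.1.pos _

/-- one factor of the test function, in the variable `u` -/
noncomputable def fac (ψ : SmoothChar p) (m : ℕ) (z : ℚ_[p]) (u : ℚ_[p]) : ℂ_[p] :=
  (∏ a ∈ Finset.range (p ^ m), if a = 0 then (1 : ℂ_[p]) else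
    ψ.toAddChar (z * ((p : ℚ_[p]) ^ m * u - a) ^ 2) + (-1)) *
  ∑ c ∈ Finset.range (p ^ m), ψ.toAddChar (z * (p : ℚ_[p]) ^ m * u) ^ c

theorem fac_good {ψ : SmoothChar p} {k : ℤ} {m : ℕ} {z : ℚ_[p]}
    (hz : ‖z‖ = (p : ℝ) ^ (2 * (m : ℤ) - k)) (i : Fin d) :
    Good ψ k (fun x => fac ψ m z (x i)) := by
  unfold fac
  have hs : ‖z * (p : ℚ_[p]) ^ (2 * m)‖ ≤ (p : ℝ) ^ (-k) := by
    rw [norm_mul, hz, norm_pow, Padic.norm_p, ← zpow_natCast, _root_.inv_zpow, ← _root_.zpow_neg,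
      ← zpow_add₀ (pR_pos p).ne']
    apply le_of_eq
    congr 1
    push_cast
    ring
  refine Good.mul (Good.prod _ fun a _ => ?_) (Good.sum _ fun c _ => ?_)
  · by_cases ha : a = 0
    · simp only [if_pos ha]
      exact Good.const (by simp)
    · simp only [if_neg ha]
      refine Good.add ?_ (Good.const (by simp))
      have h1 := Good.atom (ψ := ψ) i hs (-2 * a * z * (p : ℚ_[p]) ^ m) (z * (a : ℚ_[p]) ^ 2)
      convert h1 using 3
      ring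
  · have h1 := Good.atom (ψ := ψ) i (s := 0)
      (by rw [norm_zero]; exact (zpow_pos (pR_pos p) (-k)).le) (c * (z * (p : ℚ_[p]) ^ m)) 0
    convert h1 using 2
    rw [← AddChar.map_nsmul_eq_pow]
    congr 1
    rw [nsmul_eq_mul]
    ring

/-- the constant `∏_{0 < a < p^m} (ζ^{a²} - 1)` -/
noncomputable def Psi0 (m : ℕ) (ζ : ℂ_[p]) : ℂ_[p] :=
  ∏ a ∈ Finset.range (p ^ m), if a = 0 then (1 : ℂ_[p]) else ζ ^ (a ^ 2) - 1

theorem norm_Psi0 (m : ℕ) (ζ : ℂ_[p]) : ‖Psi0 m ζ‖ = Q m ζ := by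
  unfold Psi0 Q
  rw [norm_prod]
  refine Finset.prod_congr rfl fun a _ => ?_
  split_ifs
  · exact norm_one
  · rfl

theorem norm_zp {k : ℤ} {m : ℕ} {z : ℚ_[p]} (hz : ‖z‖ = (p : ℝ) ^ (2 * (m : ℤ) - k)) :
    ‖z * (p : ℚ_[p]) ^ m‖ = (p : ℝ) ^ ((m : ℤ) - k) := by
  rw [norm_mul, hz, norm_pow, Padic.norm_p, ← zpow_natCast, _root_.inv_zpow, ← _root_.zpow_neg,
    ← zpow_add₀ (pR_pos p).ne']
  congr 1
  ring

/-- `fac` vanishes for `p^{-m} < ‖u‖ ≤ 1`. -/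
theorem fac_eq_zero_of_le {ψ : SmoothChar p} {k : ℤ} (hk : Cond ψ k) {m : ℕ} {z : ℚ_[p]}
    (hz : ‖z‖ = (p : ℝ) ^ (2 * (m : ℤ) - k)) {u : ℚ_[p]} (hu : ‖u‖ ≤ 1)
    (hu2 : ¬ ‖u‖ ≤ (p : ℝ) ^ (-(m : ℤ))) : fac ψ m z u = 0 := by
  unfold fac
  rw [geo_sum hk (norm_zp hz) hu, if_neg hu2, mul_zero]

/-- `fac` vanishes for `1 < ‖u‖ ≤ p^m`. -/
theorem fac_eq_zero_of_gt {ψ : SmoothChar p} {k : ℤ} (hk : Cond ψ k) {m : ℕ} {z : ℚ_[p]}
    (hz : ‖z‖ = (p : ℝ) ^ (2 * (m : ℤ) - k)) {u : ℚ_[p]} (hu : ¬ ‖u‖ ≤ 1)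
    (hu2 : ‖u‖ ≤ (p : ℝ) ^ (m : ℤ)) : fac ψ m z u = 0 := by
  unfold fac
  have hpm : ‖(p : ℚ_[p]) ^ m‖ = (p : ℝ) ^ (-(m : ℤ)) := by
    rw [norm_pow, Padic.norm_p, ← zpow_natCast, _root_.inv_zpow, ← _root_.zpow_neg]
  have h1 : ‖(p : ℚ_[p]) ^ m * u‖ ≤ 1 := by
    rw [norm_mul, hpm]
    calc (p : ℝ) ^ (-(m : ℤ)) * ‖u‖ ≤ (p : ℝ) ^ (-(m : ℤ)) * (p : ℝ) ^ (m : ℤ) :=
          mul_le_mul_of_nonneg_left hu2 (zpow_pos (pR_pos p) _).le
      _ = 1 := by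
          rw [← zpow_add₀ (pR_pos p).ne', neg_add_cancel, zpow_zero]
  obtain ⟨y, hy⟩ : ∃ y : ℤ_[p], (y : ℚ_[p]) = (p : ℚ_[p]) ^ m * u := ⟨⟨_, h1⟩, rfl⟩
  have h2 : ‖y - (y.appr m : ℤ_[p])‖ ≤ (p : ℝ) ^ (-(m : ℤ)) :=
    (PadicInt.norm_le_pow_iff_mem_span_pow _ _).2 (PadicInt.appr_spec m y)
  have h3 : ‖(p : ℚ_[p]) ^ m * u - (y.appr m : ℕ)‖ ≤ (p : ℝ) ^ (-(m : ℤ)) := by
    have h4 : ((y - (y.appr m : ℤ_[p]) : ℤ_[p]) : ℚ_[p]) = (p : ℚ_[p]) ^ m * u - (y.appr m : ℕ) := by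
      push_cast
      rw [hy]
    rw [← h4, ← PadicInt.norm_def]
    exact h2
  have h5 : y.appr m ≠ 0 := by
    intro h
    rw [h, Nat.cast_zero, sub_zero, norm_mul, hpm] at h3
    apply hu
    have := le_of_mul_le_mul_left (h3.trans_eq (mul_one _).symm) (zpow_pos (pR_pos p) _)
    exact this
  rw [Finset.prod_eq_zero (Finset.mem_range.2 (PadicInt.appr_lt y m)), zero_mul]
  rw [if_neg h5]
  have h6 : ψ.toAddChar (z * ((p : ℚ_[p]) ^ m * u - (y.appr m : ℕ)) ^ 2) = 1 := by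
    apply hk.triv
    rw [norm_mul, norm_pow, hz]
    calc (p : ℝ) ^ (2 * (m : ℤ) - k) * ‖(p : ℚ_[p]) ^ m * u - (y.appr m : ℕ)‖ ^ 2
        ≤ (p : ℝ) ^ (2 * (m : ℤ) - k) * ((p : ℝ) ^ (-(m : ℤ))) ^ 2 := by
          apply mul_le_mul_of_nonneg_left _ (zpow_pos (pR_pos p) _).le
          exact pow_le_pow_left₀ (norm_nonneg _) h3 2
      _ = (p : ℝ) ^ (-k) := by
          rw [← zpow_natCast, ← _root_.zpow_mul, ← zpow_add₀ (pR_pos p).ne']
          congr 1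
          push_cast
          ring
  rw [h6]
  ring

/-- the value of `fac` for `‖u‖ ≤ p^{-m}`. -/
theorem fac_eq_of_le {ψ : SmoothChar p} {k : ℤ} (hk : Cond ψ k) {m : ℕ} {z : ℚ_[p]}
    (hz : ‖z‖ = (p : ℝ) ^ (2 * (m : ℤ) - k)) {u : ℚ_[p]}
    (hu : ‖u‖ ≤ (p : ℝ) ^ (-(m : ℤ))) :
    fac ψ m z u = Psi0 m (ψ.toAddChar z) * (p : ℂ_[p]) ^ m := by
  have hu1 : ‖u‖ ≤ 1 := hu.trans (by
    rw [_root_.zpow_neg, zpow_natCast]
    exact inv_le_one_of_one_le₀ (one_le_pow₀ (one_lt_pR p).le))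
  unfold fac Psi0
  rw [geo_sum hk (norm_zp hz) hu1, if_pos hu]
  congr 1
  refine Finset.prod_congr rfl fun a _ => ?_
  by_cases ha : a = 0
  · rw [if_pos ha, if_pos ha]
  · rw [if_neg ha, if_neg ha, ← sub_eq_add_neg]
    congr 1
    have h1 : z * ((p : ℚ_[p]) ^ m * u - a) ^ 2 = (a ^ 2 : ℕ) • z +
        (z * (p : ℚ_[p]) ^ m) * u * ((p : ℚ_[p]) ^ m * u - 2 * a) := by
      rw [nsmul_eq_mul]
      push_cast
      ring
    suffices h9 : ψ.toAddChar (z * (p : ℚ_[p]) ^ m * u * ((p : ℚ_[p]) ^ m * u - 2 * a)) = 1 by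
      rw [h1, AddChar.map_add_eq_mul, AddChar.map_nsmul_eq_pow, h9, mul_one]
    apply hk.triv
    rw [norm_mul, norm_mul, norm_zp hz]
    have h2 : ‖(p : ℚ_[p]) ^ m * u - 2 * a‖ ≤ 1 := by
      have h3 : ‖(p : ℚ_[p]) ^ m * u‖ ≤ 1 := by
        rw [norm_mul, norm_pow, Padic.norm_p]
        exact mul_le_one₀ (pow_le_one₀ (inv_nonneg.2 (pR_pos p).le)
          (inv_le_one_of_one_le₀ (one_lt_pR p).le)) (norm_nonneg _) hu1
      have h4 : ‖(2 * a : ℚ_[p])‖ ≤ 1 := by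
        have h5 := Padic.norm_int_le_one (p := p) (2 * a : ℤ)
        simpa using h5
      rw [sub_eq_add_neg]
      exact (IsUltrametricDist.norm_add_le_max _ _).trans (max_le h3 (by rwa [norm_neg]))
    calc (p : ℝ) ^ ((m : ℤ) - k) * ‖u‖ * ‖(p : ℚ_[p]) ^ m * u - 2 * a‖
        ≤ (p : ℝ) ^ ((m : ℤ) - k) * (p : ℝ) ^ (-(m : ℤ)) * 1 := by
          apply mul_le_mul _ h2 (norm_nonneg _)
            (mul_nonneg (zpow_pos (pR_pos p) _).le (zpow_pos (pR_pos p) _).le)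
          exact mul_le_mul_of_nonneg_left hu (zpow_pos (pR_pos p) _).le
      _ = (p : ℝ) ^ (-k) := by
          rw [mul_one, ← zpow_add₀ (pR_pos p).ne']
          congr 1
          ring

theorem main_est {ψ : SmoothChar p} {k : ℤ} (hk : Cond ψ k) {B : ℝ} (hB : 0 ≤ B)
    {f : (Fin d → ℚ_[p]) → ℂ_[p]} (hf : f ∈ SB p d) (h : Bd ψ k B f) :
    ‖f 0‖ ≤ (p : ℝ) ^ d * B := by
  obtain ⟨m, hm⟩ := exists_level hf
  obtain ⟨z, hz⟩ := exists_norm_eq p (2 * (m : ℤ) - k)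
  set ζ := ψ.toAddChar z with hζ
  have hprim : IsPrimitiveRoot ζ (p ^ (2 * m)) := by
    apply prim_of_cond hk
    rw [hz]
    push_cast
    rfl
  have hgood : Good ψ k (fun x : Fin d → ℚ_[p] => ∏ i, fac ψ m z (x i)) :=
    Good.prod _ fun i _ => fac_good hz i
  have h1 := hgood.bd B f hB hf h 0 0 (fun i => by
    rw [Pi.zero_apply, norm_zero]; exact (zpow_pos (pR_pos p) _).le)
  have h2 : (fun x => ψ.toAddChar (0 ⬝ᵥ x) * (chirp ψ 0 x * ((∏ i, fac ψ m z (x i)) * f x))) =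
      ((((p : ℂ_[p]) ^ m) ^ d * (Psi0 m ζ ^ d * f 0)) • ind p d m) := by
    ext x
    have hchirp : chirp ψ (0 : Fin d → ℚ_[p]) x = 1 := by simp [chirp]
    rw [hchirp, zero_dotProduct, AddChar.map_zero_eq_one, one_mul, one_mul, Pi.smul_apply,
      smul_eq_mul]
    by_cases hx : f x = 0
    · rw [hx, mul_zero]
      by_cases hxm : x ∈ L p d m
      · have h3 := hm.inv 0 x hxm
        rw [zero_add, hx] at h3
        rw [← h3]
        ring
      · rw [ind_of_notMem hxm, mul_zero]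
    · have hxs := hm.supp x hx
      by_cases hxm : x ∈ L p d m
      · have h3 := hm.inv 0 x hxm
        rw [zero_add] at h3
        rw [ind_of_mem hxm, h3, Finset.prod_congr rfl fun i _ => fac_eq_of_le hk hz (hxm i),
          Finset.prod_const, Finset.card_univ, Fintype.card_fin]
        ring
      · rw [ind_of_notMem hxm, mul_zero]
        have h4 : ∃ i, fac ψ m z (x i) = 0 := by
          by_cases hx0 : ∀ i, ‖x i‖ ≤ 1
          · rw [mem_L] at hxm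
            push Not at hxm
            obtain ⟨i, hi⟩ := hxm
            exact ⟨i, fac_eq_zero_of_le hk hz (hx0 i) (not_le.2 hi)⟩
          · push Not at hx0
            obtain ⟨i, hi⟩ := hx0
            refine ⟨i, fac_eq_zero_of_gt hk hz (not_le.2 hi) ?_⟩
            have h5 := hxs i
            rwa [neg_neg] at h5
        obtain ⟨i, hi⟩ := h4
        rw [Finset.prod_eq_zero (Finset.mem_univ i) hi, zero_mul]
  rw [h2, integ_smul _ (ind_mem (m : ℤ))] at h1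
  have h3 : ((p : ℂ_[p]) ^ m) ^ d * (Psi0 m ζ ^ d * f 0) * integ (ind p d m) =
      Psi0 m ζ ^ d * f 0 := by
    have h4 := integ_ind_pow (d := d) ψ hk m
    calc ((p : ℂ_[p]) ^ m) ^ d * (Psi0 m ζ ^ d * f 0) * integ (ind p d m)
        = (((p : ℂ_[p]) ^ m) ^ d * integ (ind p d m)) * (Psi0 m ζ ^ d * f 0) := by ring
      _ = _ := by rw [h4, one_mul]
  rw [h3, norm_mul, norm_pow, norm_Psi0] at h1
  have h5 : ((p : ℝ)⁻¹) ^ d * ‖f 0‖ ≤ B :=
    (mul_le_mul_of_nonneg_right (pow_le_pow_left₀ (inv_nonneg.2 (pR_pos p).le) (Q_ge hprim) d)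
      (norm_nonneg _)).trans h1
  rw [inv_pow, inv_mul_le_iff₀ (pow_pos (pR_pos p) d)] at h5
  exact h5

end Pool.Agent.Lib_MP_080eaf_nt
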