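import Mathlib
import Pool.Agent.Lib_MP_080eaf_nt.Defs
import Pool.Agent.Lib_MP_080eaf_nt.Main

/-! The counterexample. -/

namespace Pool.Agent.Lib_MP_080eaf_nt

open Matrix

variable {p : ℕ} [hp : Fact p.Prime] {d : ℕ}

/-- the condition defining the closed ball of Lagrangians -/
def Cnd (r : ℝ) (g : Matrix (Fin d ⊕ Fin d) (Fin d ⊕ Fin d) ℚ_[p]) : Prop :=
  ∃ S : Matrix (Fin d) (Fin d) ℚ_[p], (∀ i j, ‖S i j‖ ≤ r) ∧ g.toBlocks₂₂ = g.toBlocks₂₁ * S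

/-- the closed ball of Lagrangians -/
def ballSet (p : ℕ) [Fact p.Prime] (d : ℕ) (r : ℝ) : Set (X p d) :=
  {α | ∃ g : symplecticGroup (Fin d) ℚ_[p], Quotient.mk _ g = α ∧
    Cnd r (g : Matrix (Fin d ⊕ Fin d) (Fin d ⊕ Fin d) ℚ_[p])}

theorem blocks_mul_of_siegel {q g : symplecticGroup (Fin d) ℚ_[p]} (hq : q ∈ siegel p d) :
    ((q * g : symplecticGroup (Fin d) ℚ_[p]) :
      Matrix (Fin d ⊕ Fin d) (Fin d ⊕ Fin d) ℚ_[p]).toBlocks₂₁ =
      (q : Matrix (Fin d ⊕ Fin d) (Fin d ⊕ Fin d) ℚ_[p]).toBlocks₂₂ *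
        (g : Matrix (Fin d ⊕ Fin d) (Fin d ⊕ Fin d) ℚ_[p]).toBlocks₂₁ ∧
    ((q * g : symplecticGroup (Fin d) ℚ_[p]) :
      Matrix (Fin d ⊕ Fin d) (Fin d ⊕ Fin d) ℚ_[p]).toBlocks₂₂ =
      (q : Matrix (Fin d ⊕ Fin d) (Fin d ⊕ Fin d) ℚ_[p]).toBlocks₂₂ *
        (g : Matrix (Fin d ⊕ Fin d) (Fin d ⊕ Fin d) ℚ_[p]).toBlocks₂₂ := by
  have h1 : ((q * g : symplecticGroup (Fin d) ℚ_[p]) :
      Matrix (Fin d ⊕ Fin d) (Fin d ⊕ Fin d) ℚ_[p]) = q * g := rfl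
  have hq' : (q : Matrix (Fin d ⊕ Fin d) (Fin d ⊕ Fin d) ℚ_[p]).toBlocks₂₁ = 0 := hq
  have h2 : (q : Matrix (Fin d ⊕ Fin d) (Fin d ⊕ Fin d) ℚ_[p]) *
      (g : Matrix (Fin d ⊕ Fin d) (Fin d ⊕ Fin d) ℚ_[p]) =
      fromBlocks (q : Matrix (Fin d ⊕ Fin d) (Fin d ⊕ Fin d) ℚ_[p]).toBlocks₁₁
        (q : Matrix (Fin d ⊕ Fin d) (Fin d ⊕ Fin d) ℚ_[p]).toBlocks₁₂
        (q : Matrix (Fin d ⊕ Fin d) (Fin d ⊕ Fin d) ℚ_[p]).toBlocks₂₁
        (q : Matrix (Fin d ⊕ Fin d) (Fin d ⊕ Fin d) ℚ_[p]).toBlocks₂₂ *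
      fromBlocks (g : Matrix (Fin d ⊕ Fin d) (Fin d ⊕ Fin d) ℚ_[p]).toBlocks₁₁
        (g : Matrix (Fin d ⊕ Fin d) (Fin d ⊕ Fin d) ℚ_[p]).toBlocks₁₂
        (g : Matrix (Fin d ⊕ Fin d) (Fin d ⊕ Fin d) ℚ_[p]).toBlocks₂₁
        (g : Matrix (Fin d ⊕ Fin d) (Fin d ⊕ Fin d) ℚ_[p]).toBlocks₂₂ := by
    rw [fromBlocks_toBlocks, fromBlocks_toBlocks]
  rw [h1, h2, fromBlocks_multiply, toBlocks_fromBlocks₂₁, toBlocks_fromBlocks₂₂, hq']
  simp

theorem mem_ballSet_iff (r : ℝ) (g : symplecticGroup (Fin d) ℚ_[p]) :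
    (Quotient.mk _ g : X p d) ∈ ballSet p d r ↔
      Cnd r (g : Matrix (Fin d ⊕ Fin d) (Fin d ⊕ Fin d) ℚ_[p]) := by
  constructor
  · rintro ⟨g', hg', S, hS, h⟩
    have h1 : g * g'⁻¹ ∈ siegel p d := by
      have h2 : (QuotientGroup.rightRel (siegel p d)) g' g := Quotient.exact hg'
      rwa [QuotientGroup.rightRel_apply] at h2
    have h3 := blocks_mul_of_siegel (g := g') h1
    rw [inv_mul_cancel_right] at h3
    refine ⟨S, hS, ?_⟩
    rw [h3.1, h3.2, h, Matrix.mul_assoc]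
  · intro h
    exact ⟨g, rfl, h⟩

theorem isClosed_of_preimage {I : Set (X p d)}
    (h : IsClosed {g : symplecticGroup (Fin d) ℚ_[p] | (Quotient.mk _ g : X p d) ∈ I}) :
    IsClosed I :=
  isQuotientMap_quotient_mk'.isClosed_preimage.1 h

theorem cont21 : Continuous (fun g : symplecticGroup (Fin d) ℚ_[p] =>
    (g : Matrix (Fin d ⊕ Fin d) (Fin d ⊕ Fin d) ℚ_[p]).toBlocks₂₁) :=
  continuous_pi fun i => continuous_pi fun j =>
    (continuous_apply_apply (Sum.inr i) (Sum.inl j)).comp continuous_subtype_val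

theorem cont22 : Continuous (fun g : symplecticGroup (Fin d) ℚ_[p] =>
    (g : Matrix (Fin d ⊕ Fin d) (Fin d ⊕ Fin d) ℚ_[p]).toBlocks₂₂) :=
  continuous_pi fun i => continuous_pi fun j =>
    (continuous_apply_apply (Sum.inr i) (Sum.inr j)).comp continuous_subtype_val

theorem isClosed_ballSet (r : ℝ) : IsClosed (ballSet p d r) := by
  apply isClosed_of_preimage
  simp only [mem_ballSet_iff]
  set K : Set (Matrix (Fin d) (Fin d) ℚ_[p]) := {S | ∀ i j, ‖S i j‖ ≤ r} with hK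
  have hKc : IsCompact K := by
    have h1 : K = Set.pi Set.univ (fun _ : Fin d => Set.pi Set.univ
        (fun _ : Fin d => Metric.closedBall (0 : ℚ_[p]) r)) := by
      ext S
      constructor
      · intro h i _ j _
        exact mem_closedBall_zero_iff.2 (h i j)
      · intro h i j
        exact mem_closedBall_zero_iff.1 (h i (Set.mem_univ i) j (Set.mem_univ j))
    rw [h1]
    exact isCompact_univ_pi fun _ => isCompact_univ_pi fun _ => isCompact_closedBall 0 r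
  have : CompactSpace K := isCompact_iff_compactSpace.1 hKc
  have h2 : {g : symplecticGroup (Fin d) ℚ_[p] |
      Cnd r (g : Matrix (Fin d ⊕ Fin d) (Fin d ⊕ Fin d) ℚ_[p])} =
      Prod.snd '' {x : K × symplecticGroup (Fin d) ℚ_[p] |
        (x.2 : Matrix (Fin d ⊕ Fin d) (Fin d ⊕ Fin d) ℚ_[p]).toBlocks₂₂ =
        (x.2 : Matrix (Fin d ⊕ Fin d) (Fin d ⊕ Fin d) ℚ_[p]).toBlocks₂₁ *
          (x.1 : Matrix (Fin d) (Fin d) ℚ_[p])} := by
    ext g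
    constructor
    · rintro ⟨S, hS, h⟩
      exact ⟨(⟨S, hS⟩, g), h, rfl⟩
    · rintro ⟨⟨⟨S, hS⟩, g'⟩, h, rfl⟩
      exact ⟨S, hS, h⟩
  rw [h2]
  refine isClosedMap_snd_of_compactSpace _ ?_
  exact isClosed_eq (cont22.comp continuous_snd)
    ((cont21.comp continuous_snd).matrix_mul (continuous_subtype_val.comp continuous_fst))

/-- the base point `P` of `X` -/
noncomputable def basePt (p : ℕ) [Fact p.Prime] (d : ℕ) : X p d := Quotient.mk _ 1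

theorem mk_eq_basePt_iff (g : symplecticGroup (Fin d) ℚ_[p]) :
    (Quotient.mk _ g : X p d) = basePt p d ↔
      (g : Matrix (Fin d ⊕ Fin d) (Fin d ⊕ Fin d) ℚ_[p]).toBlocks₂₁ = 0 := by
  have h1 : (Quotient.mk _ g : X p d) = basePt p d ↔ g⁻¹ ∈ siegel p d := by
    unfold basePt
    rw [Quotient.eq]
    rw [QuotientGroup.rightRel_apply, one_mul]
  rw [h1, inv_mem_iff]
  rfl

theorem isClosed_basePt : IsClosed ({basePt p d} : Set (X p d)) := by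
  apply isClosed_of_preimage
  simp only [Set.mem_singleton_iff, mk_eq_basePt_iff]
  exact isClosed_eq cont21 continuous_const

theorem disjoint_sets (hd : 1 ≤ d) (r : ℝ) : Disjoint (ballSet p d r) {basePt p d} := by
  rw [Set.disjoint_singleton_right]
  rintro ⟨g, hg, S, -, h⟩
  rw [mk_eq_basePt_iff] at hg
  rw [hg, Matrix.zero_mul] at h
  have h1 := g.2
  rw [SymplecticGroup.mem_iff, ← fromBlocks_toBlocks (g : Matrix (Fin d ⊕ Fin d) (Fin d ⊕ Fin d)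
    ℚ_[p]), hg, h, J, fromBlocks_transpose, fromBlocks_multiply, fromBlocks_multiply,
    fromBlocks_inj] at h1
  have h2 := h1.2.2.1
  simp only [Matrix.zero_mul, add_zero] at h2
  have h3 := congrFun (congrFun h2 ⟨0, hd⟩) ⟨0, hd⟩
  rw [Matrix.one_apply_eq, Matrix.zero_apply] at h3
  exact zero_ne_one h3

theorem coe_gJ_mul_gU (s : Fin d → ℚ_[p]) : ((gJ p d * gU s : symplecticGroup (Fin d) ℚ_[p]) :
    Matrix (Fin d ⊕ Fin d) (Fin d ⊕ Fin d) ℚ_[p]) =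
      fromBlocks 0 1 (-1) (-diagonal (fun i => 2 * s i)) := by
  change (fromBlocks 0 1 (-1) 0 : Matrix (Fin d ⊕ Fin d) (Fin d ⊕ Fin d) ℚ_[p]) *
    fromBlocks 1 (diagonal (fun i => 2 * s i)) 0 1 = _
  rw [fromBlocks_multiply]
  simp

theorem gJ_mul_gU_mem {r : ℝ} (hr : 0 ≤ r) {s : Fin d → ℚ_[p]} (hs : ∀ i, ‖s i‖ ≤ r) :
    (Quotient.mk _ (gJ p d * gU s) : X p d) ∈ ballSet p d r := by
  rw [mem_ballSet_iff, coe_gJ_mul_gU]
  refine ⟨diagonal (fun i => 2 * s i), fun i j => ?_, ?_⟩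
  · by_cases hij : i = j
    · subst hij
      rw [diagonal_apply_eq, norm_mul]
      refine (mul_le_of_le_one_left (norm_nonneg _) ?_).trans (hs i)
      have h := Padic.norm_int_le_one (p := p) 2
      simpa using h
    · rw [diagonal_apply_ne _ hij, norm_zero]
      exact hr
  · rw [toBlocks_fromBlocks₂₂, toBlocks_fromBlocks₂₁]
    simp

theorem supNorm_phi0_le : supNorm (phi0 p d) ≤ 1 := by
  apply supNorm_le
  intro x
  rw [phi0_eq]
  by_cases hx : x ∈ L p d 0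
  · rw [ind_of_mem hx, norm_one]
  · rw [ind_of_notMem hx, norm_zero]
    exact zero_le_one

theorem MS_phi0 {ψ : SmoothChar p} {k : ℤ} (hk : Cond ψ k) {s : Fin d → ℚ_[p]}
    (hs : ∀ i, ‖s i‖ ≤ (p : ℝ) ^ (-k)) : MS ψ s (phi0 p d) = phi0 p d := by
  ext x
  change chirp ψ s x * (phi0 p d : (Fin d → ℚ_[p]) → ℂ_[p]) x = _
  rw [phi0_eq]
  by_cases hx : x ∈ L p d 0
  · have h1 : chirp ψ s x = 1 := by
      apply hk.triv
      refine IsUltrametricDist.norm_sum_le_of_forall_le_of_nonneg (zpow_pos (pR_pos p) _).le ?_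
      intro i _
      rw [norm_mul, norm_pow]
      have h2 : ‖x i‖ ≤ 1 := by simpa using hx i
      calc ‖s i‖ * ‖x i‖ ^ 2 ≤ ‖s i‖ * 1 :=
            mul_le_mul_of_nonneg_left (pow_le_one₀ (norm_nonneg _) h2) (norm_nonneg _)
        _ ≤ _ := by rw [mul_one]; exact hs i
    rw [h1, one_mul]
  · rw [ind_of_notMem hx, mul_zero]

theorem supNorm_FT_phi0 (ψ : SmoothChar p) : supNorm (FT ψ (phi0 p d)) ≤ 1 := by
  obtain ⟨k, hk⟩ := exists_cond ψ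
  apply supNorm_le
  intro y
  change ‖four ψ (phi0 p d : (Fin d → ℚ_[p]) → ℂ_[p]) y‖ ≤ 1
  rw [phi0_eq, four_ind hk, integ_ind_zero, one_smul]
  by_cases hy : y ∈ L p d (k - 0)
  · rw [ind_of_mem hy, norm_one]
  · rw [ind_of_notMem hy, norm_zero]
    exact zero_le_one

/-- the operator attached to `gJ * gU s` -/
noncomputable def TS (ψ : SmoothChar p) (s : Fin d → ℚ_[p]) : SB p d ≃ₗ[ℂ_[p]] SB p d :=
  (MS ψ s).trans (FTe ψ d)

theorem isIntertwiner_TS (ψ : SmoothChar p) (s : Fin d → ℚ_[p]) :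
    IsIntertwiner ψ (gJ p d * gU s) (TS ψ s) :=
  (isIntertwiner_FTe ψ).comp (isIntertwiner_MS ψ s)

theorem IsIntertwiner.supNorm_heis_le {ψ : SmoothChar p} {g : symplecticGroup (Fin d) ℚ_[p]}
    {T : SB p d ≃ₗ[ℂ_[p]] SB p d} (hT : IsIntertwiner ψ g T) (w : Fin d ⊕ Fin d → ℚ_[p])
    (t : ℚ_[p]) (f : SB p d) : supNorm (T (heis ψ w t f)) ≤ supNorm (T f) := by
  have h1 := hT (w ᵥ* ((g⁻¹ : symplecticGroup (Fin d) ℚ_[p]) :
    Matrix (Fin d ⊕ Fin d) (Fin d ⊕ Fin d) ℚ_[p])) t f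
  have h2 : ((g⁻¹ : symplecticGroup (Fin d) ℚ_[p]) :
      Matrix (Fin d ⊕ Fin d) (Fin d ⊕ Fin d) ℚ_[p]) *
      (g : Matrix (Fin d ⊕ Fin d) (Fin d ⊕ Fin d) ℚ_[p]) = 1 := by
    have h3 : (g⁻¹ * g : symplecticGroup (Fin d) ℚ_[p]) = 1 := inv_mul_cancel g
    exact congrArg Subtype.val h3
  rw [vecMul_vecMul, h2, vecMul_one] at h1
  rw [← h1]
  exact Pool.Agent.Lib_MP_080eaf_nt.supNorm_heis_le ψ _ _ _

theorem supNorm_le_normOn {ψ : SmoothChar p} {k : ℤ} (hk : Cond ψ k) (f : SB p d) :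
    supNorm f ≤ (p : ℝ) ^ d * normOn ψ (ballSet p d ((p : ℝ) ^ (-k))) f := by
  set I := ballSet p d ((p : ℝ) ^ (-k)) with hI
  have hr : (0 : ℝ) ≤ (p : ℝ) ^ (-k) := (zpow_pos (pR_pos p) _).le
  have key : ∀ s : Fin d → ℚ_[p], (∀ i, ‖s i‖ ≤ (p : ℝ) ^ (-k)) →
      supNorm (TS ψ s f) ≤ normOn ψ I f := by
    intro s hs
    have h1 := le_normOn (I := I) (gJ_mul_gU_mem hr hs) (isIntertwiner_TS ψ s) f
    have h2 : TS ψ s (phi0 p d) = FT ψ (phi0 p d) := by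
      change FT ψ (MS ψ s (phi0 p d)) = _
      rw [MS_phi0 hk hs]
    have h3 : supNorm (TS ψ s (phi0 p d)) ≤ 1 := by
      rw [h2]
      exact supNorm_FT_phi0 ψ
    have h4 : 0 < supNorm (TS ψ s (phi0 p d)) := by
      apply supNorm_pos
      rw [Ne, LinearEquiv.map_eq_zero_iff]
      exact phi0_ne_zero
    refine le_trans ?_ h1
    rw [le_div_iff₀ h4]
    exact mul_le_of_le_one_right (supNorm_nonneg _) h3
  have hB : 0 ≤ normOn ψ I f :=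
    (supNorm_nonneg _).trans (key 0 (fun i => by rw [Pi.zero_apply, norm_zero]; exact hr))
  apply supNorm_le
  intro x0
  have h5 : (f : (Fin d → ℚ_[p]) → ℂ_[p]) x0 =
      (heis ψ (Sum.elim x0 0) 0 f : (Fin d → ℚ_[p]) → ℂ_[p]) 0 := by
    change _ = heisFun ψ (Sum.elim x0 0) 0 (f : (Fin d → ℚ_[p]) → ℂ_[p]) 0
    unfold heisFun
    simp
  rw [h5]
  refine main_est hk hB (heis ψ (Sum.elim x0 0) 0 f).2 ?_
  intro s y hs
  have h6 : integ (fun x => ψ.toAddChar (y ⬝ᵥ x) * (chirp ψ s x *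
      (heis ψ (Sum.elim x0 0) 0 f : (Fin d → ℚ_[p]) → ℂ_[p]) x)) =
      (TS ψ s (heis ψ (Sum.elim x0 0) 0 f) : (Fin d → ℚ_[p]) → ℂ_[p]) y := rfl
  rw [h6]
  exact (le_supNorm _ y).trans (((isIntertwiner_TS ψ s).supNorm_heis_le _ _ f).trans (key s hs))

theorem isIntertwiner_one (ψ : SmoothChar p) :
    IsIntertwiner ψ (1 : symplecticGroup (Fin d) ℚ_[p]) (LinearEquiv.refl _ _) := by
  intro w t f
  change heis ψ w t f = heis ψ (w ᵥ* (1 : Matrix (Fin d ⊕ Fin d) (Fin d ⊕ Fin d) ℚ_[p])) t f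
  rw [vecMul_one]

theorem supNorm_le_normOn_base (ψ : SmoothChar p) (f : SB p d) :
    supNorm f ≤ normOn ψ {basePt p d} f := by
  have h1 := le_normOn (I := {basePt p d}) (g := 1) rfl (isIntertwiner_one ψ) f
  refine le_trans ?_ h1
  change supNorm f ≤ supNorm f / supNorm (phi0 p d)
  rw [le_div_iff₀ (supNorm_pos phi0_ne_zero)]
  exact mul_le_of_le_one_right (supNorm_nonneg _) supNorm_phi0_le

theorem main (p : ℕ) [Fact p.Prime] (d : ℕ) (hd : 1 ≤ d) (ψ : SmoothChar p) :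
    ∃ I₁ I₂ : Set (X p d), I₁.Nonempty ∧ I₂.Nonempty ∧ IsClosed I₁ ∧ IsClosed I₂ ∧
      Disjoint I₁ I₂ ∧ ¬ Independent (normOn ψ I₁) (normOn ψ I₂) := by
  obtain ⟨k, hk⟩ := exists_cond ψ
  refine ⟨ballSet p d ((p : ℝ) ^ (-k)), {basePt p d}, ⟨_, gJ_mul_gU_mem
    (zpow_pos (pR_pos p) _).le (s := 0) (fun i => by
      rw [Pi.zero_apply, norm_zero]; exact (zpow_pos (pR_pos p) _).le)⟩, ⟨_, rfl⟩,
    isClosed_ballSet _, isClosed_basePt, disjoint_sets hd _, ?_⟩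
  intro h
  have h1 := h (supSeminorm p d) supNorm_add
    ⟨(p : ℝ) ^ d, pow_pos (pR_pos p) d, fun f => supNorm_le_normOn hk f⟩
    ⟨1, one_pos, fun f => by
      rw [one_mul]
      exact supNorm_le_normOn_base ψ f⟩
  have h2 : supNorm (phi0 p d) = 0 := by
    have h3 := congrArg (fun q : Seminorm ℂ_[p] (SB p d) => q (phi0 p d)) h1
    exact h3
  exact (supNorm_pos (p := p) (d := d) phi0_ne_zero).ne' h2

/-- the character in the form used in the proofs -/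
noncomputable def SmoothCharacter.toSC (ψ : SmoothCharacter p) : SmoothChar p :=
  ⟨ψ.char, ψ.isLocallyConstant, ψ.ne_one⟩

theorem mainS (p : ℕ) [Fact p.Prime] (d : ℕ) (hd : 1 ≤ d) (ψ : SmoothCharacter p) :
    ∃ I₁ I₂ : Set (GrassX p d), I₁.Nonempty ∧ I₂.Nonempty ∧ IsClosed I₁ ∧ IsClosed I₂ ∧
      Disjoint I₁ I₂ ∧ ¬ AreIndependent (normOnX ψ I₁) (normOnX ψ I₂) := by
  obtain ⟨I₁, I₂, h1, h2, h3, h4, h5, h6⟩ := main p d hd ψ.toSC
  exact ⟨I₁, I₂, h1, h2, h3, h4, h5, h6⟩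

end Pool.Agent.Lib_MP_080eaf_nt
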